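import Pool.Agent.BraidOut.Chains

/-!
# The two braids, the relations between them
-/

set_option autoImplicit false

namespace Pool.Agent.BraidOut

open Pool.Agent.BraidSliding

def twl : List (Fin 4) := [2, 1, 0, 0, 1, 2]
def tw2l : List (Fin 4) := [1, 2, 3, 3, 2, 1]

/-- the full twist of the strand `3` and the ribbon of the first three strands -/
def T : Braid 5 := ev twl
/-- the full twist of the strand `1` and the ribbon of the last three strands -/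
def T2 : Braid 5 := ev tw2l
/-- the preferred prefixes -/
def e1 : Braid 5 := ev E1
def e2 : Braid 5 := ev E2

/-- the braid of the example -/
def bX : Braid 5 := ev fX.flatten
/-- the braid after one cyclic sliding -/
def bY : Braid 5 := ev fY.flatten

lemma bX_eq : bX = e1 * e2 * T ^ 2 * s 3 * s 0 ^ 7 := by
  have h : ev fX.flatten =
      ev (E1 ++ (E2 ++ (twl ++ (twl ++ ([3] ++ [0, 0, 0, 0, 0, 0, 0]))))) :=
    ev_eq_of_mvs [0, 1, 3, 4, 6, 8, 10, 9, 7, 13, 14, 12, 11, 10, 9, 10, 12, 13, 16, 15, 14,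
      17, 16, 15, 19, 18,
      17, 22, 21, 20, 19, 24, 23, 22, 21, 20, 25, 24, 23, 22, 21, 27, 26, 25, 24, 23, 30, 29, 28,
      27, 26, 25, 31, 30, 29, 28, 27, 26]
      (by decide +kernel)
  unfold bX e1 e2 T
  rw [h]
  simp only [ev_append]
  simp only [ev_cons, ev_nil, mul_one, pow_succ, pow_zero, one_mul, mul_assoc]

lemma bY_eq : bY = e2 * e1 * T2 ^ 2 * s 0 * s 2 ^ 7 := by
  have h : ev fY.flatten =
      ev (E2 ++ (E1 ++ (tw2l ++ (tw2l ++ ([0] ++ [2, 2, 2, 2, 2, 2, 2]))))) :=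
    ev_eq_of_mvs [0, 2, 1, 5, 6, 4, 3, 2, 8, 7, 9, 8, 11, 10, 12, 11, 14, 13, 15, 14, 18, 17,
      16, 20, 19, 18, 17,
      21, 20, 19, 18, 23, 22, 21, 20, 26, 25, 24, 23, 22, 28, 27, 26, 25, 24, 23, 29, 28, 27, 26,
      25, 24, 31, 30, 29, 28, 27, 26]
      (by decide +kernel)
  unfold bY e1 e2 T2
  rw [h]
  simp only [ev_append]
  simp only [ev_cons, ev_nil, mul_one, pow_succ, pow_zero, one_mul, mul_assoc]

lemma semi1 : SemiconjBy e1 T2 T := by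
  have h : ev (E1 ++ tw2l) = ev (twl ++ E1) :=
    ev_eq_of_mvs [5, 4, 3, 7, 5, 4, 8, 7, 5, 9, 8, 6, 10, 8, 7, 10, 9, 8] (by decide +kernel)
  rw [ev_append, ev_append] at h
  simpa only [SemiconjBy, e1, T2, T] using h

lemma semi2 : SemiconjBy e1 (s 0) (s 3) := by
  have h : ev (E1 ++ [0]) = ev ([3] ++ E1) :=
    ev_eq_of_mvs [2, 1, 3, 4, 2, 0, 2, 4, 3] (by decide +kernel)
  rw [ev_append, ev_append] at h
  simpa only [SemiconjBy, e1, ev_single] using h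

lemma semi3 : SemiconjBy e1 (s 2) (s 0) := by
  have h : ev (E1 ++ [2]) = ev ([0] ++ E1) :=
    ev_eq_of_mvs [6, 4, 3, 1, 0] (by decide +kernel)
  rw [ev_append, ev_append] at h
  simpa only [SemiconjBy, e1, ev_single] using h

lemma semi4 : SemiconjBy e2 T T2 := by
  have h : ev (E2 ++ twl) = ev (tw2l ++ E2) :=
    ev_eq_of_mvs [5, 4, 3, 7, 5, 4, 8, 7, 5, 9, 8, 6, 10, 8, 7, 10, 9, 8] (by decide +kernel)
  rw [ev_append, ev_append] at h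
  simpa only [SemiconjBy, e2, T, T2] using h

lemma semi5 : SemiconjBy e2 (s 3) (s 0) := by
  have h : ev (E2 ++ [3]) = ev ([0] ++ E2) :=
    ev_eq_of_mvs [2, 1, 3, 4, 2, 0, 2, 4, 3] (by decide +kernel)
  rw [ev_append, ev_append] at h
  simpa only [SemiconjBy, e2, ev_single] using h

lemma semi6 : SemiconjBy e2 (s 0) (s 2) := by
  have h : ev (E2 ++ [0]) = ev ([2] ++ E2) :=
    ev_eq_of_mvs [6, 5, 3, 2, 0] (by decide +kernel)
  rw [ev_append, ev_append] at h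
  simpa only [SemiconjBy, e2, ev_single] using h

lemma D3_e1 : D3 * e1 = Δ 5 := by
  have h : ev ([0, 1, 0] ++ E1) = ev DW := ev_eq_of_mvs [2, 5, 4, 3, 6] (by decide +kernel)
  rw [ev_append] at h
  rw [Δ_DW, ← h]
  rfl

lemma e2_D3 : e2 * D3 = Δ 5 := by
  have h : ev (E2 ++ [0, 1, 0]) = ev DW :=
    ev_eq_of_mvs [2, 1, 3, 4, 2, 0, 2, 4, 3] (by decide +kernel)
  rw [ev_append] at h
  rw [Δ_DW, ← h]
  rfl

lemma T_s0 : Commute T (s 0) := by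
  have h : ev (twl ++ [0]) = ev ([0] ++ twl) := ev_eq_of_mvs [5, 3, 1, 0] (by decide +kernel)
  rw [ev_append, ev_append, ev_single] at h
  exact h

lemma T_s1 : Commute T (s 1) := by
  have h : ev (twl ++ [1]) = ev ([1] ++ twl) := ev_eq_of_mvs [4, 3, 2, 0] (by decide +kernel)
  rw [ev_append, ev_append, ev_single] at h
  exact h

lemma T_s3 : T * s 3 * T * s 3 = e1 * e2 := by
  have h : ev (twl ++ ([3] ++ (twl ++ [3]))) = ev (E1 ++ E2) :=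
    ev_eq_of_mvs [5, 4, 3, 7, 5, 4, 8, 7, 5] (by decide +kernel)
  simp only [ev_append, ev_single] at h
  unfold T e1 e2
  rw [← h]
  simp only [mul_assoc]

lemma Δ_s0 : SemiconjBy (Δ 5) (s 0) (s 3) := by
  have h : ev (DW ++ [0]) = ev ([3] ++ DW) := ev_eq_of_mvs [7, 5, 4, 2, 1, 0] (by decide +kernel)
  rw [ev_append, ev_append, ev_single, ev_single] at h
  rw [Δ_DW]
  exact h

lemma Δ_s1 : SemiconjBy (Δ 5) (s 1) (s 2) := by
  have h : ev (DW ++ [1]) = ev ([2] ++ DW) := ev_eq_of_mvs [6, 4, 3, 1, 0, 8] (by decide +kernel)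
  rw [ev_append, ev_append, ev_single, ev_single] at h
  rw [Δ_DW]
  exact h

lemma Δ_s2 : SemiconjBy (Δ 5) (s 2) (s 1) := by
  have h : ev (DW ++ [2]) = ev ([1] ++ DW) :=
    ev_eq_of_mvs [3, 2, 0, 6, 9, 7, 5, 7] (by decide +kernel)
  rw [ev_append, ev_append, ev_single, ev_single] at h
  rw [Δ_DW]
  exact h

lemma Δ_s3 : SemiconjBy (Δ 5) (s 3) (s 0) := by
  have h : ev (DW ++ [3]) = ev ([0] ++ DW) :=
    ev_eq_of_mvs [3, 2, 4, 9, 8, 7, 5, 3, 1, 3, 5, 4] (by decide +kernel)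
  rw [ev_append, ev_append, ev_single, ev_single] at h
  rw [Δ_DW]
  exact h

lemma Δ_sq_s (i : Fin 4) : Commute (Δ 5 ^ 2) (s i) := by
  rw [pow_two]
  match i with
  | 0 => exact Δ_s3.mul_left Δ_s0
  | 1 => exact Δ_s2.mul_left Δ_s1
  | 2 => exact Δ_s1.mul_left Δ_s2
  | 3 => exact Δ_s0.mul_left Δ_s3

lemma Δ_sq_ev (w : List (Fin 4)) : Commute (Δ 5 ^ 2) (ev w) := by
  induction w with
  | nil => rw [ev_nil]; exact Commute.one_right _
  | cons a w ih => rw [ev_cons]; exact (Δ_sq_s a).mul_right ih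

lemma conj_bX : e1⁻¹ * bX * e1 = bY := by
  have h0 : SemiconjBy e1 (e2 * e1) (e1 * e2) := (mul_assoc e1 e2 e1).symm
  have h : SemiconjBy e1 bY bX := by
    rw [bX_eq, bY_eq]
    exact ((h0.mul_right (semi1.pow_right 2)).mul_right semi2).mul_right (semi3.pow_right 7)
  rw [mul_assoc, ← h.eq, inv_mul_cancel_left]

lemma conj_bY : e2⁻¹ * bY * e2 = bX := by
  have h0 : SemiconjBy e2 (e1 * e2) (e2 * e1) := (mul_assoc e2 e1 e2).symm
  have h : SemiconjBy e2 bX bY := by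
    rw [bX_eq, bY_eq]
    exact ((h0.mul_right (semi4.pow_right 2)).mul_right semi5).mul_right (semi6.pow_right 7)
  rw [mul_assoc, ← h.eq, inv_mul_cancel_left]

/-! ### the conjugate which preserves a round curve -/

/-- the full twist of the three ribbons -/
def Z : Braid 5 := e1 * e2

lemma D3_T : Commute D3 T := by
  unfold D3
  simp only [ev_cons, ev_nil, mul_one]
  exact (T_s0.symm.mul_left (T_s1.symm.mul_left T_s0.symm))

lemma Z_D3 : Z * D3 ^ 2 = Δ 5 ^ 2 := by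
  have h1 : Δ 5 ^ 2 * D3 = D3 * Δ 5 ^ 2 := (Δ_sq_ev [0, 1, 0]).eq
  have h2 : D3 * (Z * D3 ^ 2) = D3 * Δ 5 ^ 2 := by
    rw [← h1]
    unfold Z
    calc D3 * (e1 * e2 * D3 ^ 2) = (D3 * e1) * (e2 * D3) * D3 := by
          rw [pow_two]; simp only [mul_assoc]
      _ = Δ 5 ^ 2 * D3 := by rw [D3_e1, e2_D3, ← pow_two]
  exact mul_left_cancel h2

lemma Z_eq : Z = Δ 5 ^ 2 * (D3 ^ 2)⁻¹ := by rw [← Z_D3, mul_inv_cancel_right]

lemma Z_T : Commute Z T := by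
  rw [Z_eq]
  exact (Δ_sq_ev twl).mul_left (D3_T.pow_left 2).inv_left

lemma Z_s0 : Commute Z (s 0) := by
  rw [Z_eq]
  exact (Δ_sq_s 0).mul_left comm_D0.inv_left

lemma Z_s3 : Commute Z (s 3) := by
  rw [Z_eq]
  exact (Δ_sq_s 3).mul_left (comm_D3.pow_left 2).inv_left

/-- the conjugate of the braid -/
def x1 : Braid 5 := Z ^ 2 * ((s 3)⁻¹ * s 0 ^ 7)

lemma bX_conj : bX * T = T * x1 := by
  rw [bX_eq]
  have h1 : T * s 3 * T = Z * (s 3)⁻¹ := by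
    rw [eq_mul_inv_iff_mul_eq]
    exact T_s3
  have h2 : s 0 ^ 7 * T = T * s 0 ^ 7 := (T_s0.pow_right 7).symm.eq
  unfold x1
  calc e1 * e2 * T ^ 2 * s 3 * s 0 ^ 7 * T
      = Z * T * (T * s 3) * (s 0 ^ 7 * T) := by
        unfold Z; rw [pow_two]; simp only [mul_assoc]
    _ = Z * T * (T * s 3 * T) * s 0 ^ 7 := by rw [h2]; simp only [mul_assoc]
    _ = (Z * T) * (Z * (s 3)⁻¹) * s 0 ^ 7 := by rw [h1]
    _ = (T * Z) * (Z * (s 3)⁻¹) * s 0 ^ 7 := by rw [Z_T.eq]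
    _ = T * (Z ^ 2 * ((s 3)⁻¹ * s 0 ^ 7)) := by rw [pow_two]; simp only [mul_assoc]

lemma bX_pow_conj (n : ℕ) : bX ^ n * T = T * x1 ^ n := by
  have h : SemiconjBy T x1 bX := bX_conj.symm
  exact (h.pow_right n).eq.symm

/-- the pure part -/
def y2 : Braid 5 := (D3 ^ 2) ^ 4 * s 3 ^ 2 * ((s 0 ^ 2)⁻¹) ^ 7

lemma x1_y2 : x1 ^ 2 * y2 = (Δ 5 ^ 2) ^ 4 := by
  have c1 : Commute (Z ^ 2) ((s 3)⁻¹ * s 0 ^ 7) :=
    (Z_s3.inv_right.mul_right (Z_s0.pow_right 7)).pow_left 2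
  have c2 : Commute (s 3)⁻¹ (s 0 ^ 7) := comm_03.symm.inv_left.pow_right 7
  have c3 : Commute (s 3) (s 0) := comm_03.symm
  have c4 : Commute (D3 ^ 2) (s 3) := comm_D3.pow_left 2
  have c5 : Commute (D3 ^ 2) (s 0) := comm_D0
  have e1' : x1 ^ 2 = Z ^ 4 * ((s 3 ^ 2)⁻¹ * (s 0 ^ 2) ^ 7) := by
    unfold x1
    rw [c1.mul_pow, c2.mul_pow, ← pow_mul, ← pow_mul, ← pow_mul, inv_pow]
  have e2' : Z ^ 4 * (D3 ^ 2) ^ 4 = (Δ 5 ^ 2) ^ 4 := by
    have c6 : Commute Z (D3 ^ 2) := by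
      rw [Z_eq]
      exact ((Δ_sq_ev [0, 1, 0]).pow_right 2).mul_left (Commute.refl _).inv_left
    rw [← c6.mul_pow, Z_D3]
  have c7 : Commute ((s 3 ^ 2)⁻¹ * (s 0 ^ 2) ^ 7) ((D3 ^ 2) ^ 4) := by
    have c8 : Commute (s 3 ^ 2) (D3 ^ 2) := (c4.pow_right 2).symm
    have c9 : Commute (s 0 ^ 2) (D3 ^ 2) := (c5.pow_right 2).symm
    exact (c8.inv_left.mul_left (c9.pow_left 7)).pow_right 4
  have c10 : Commute (s 3 ^ 2) ((s 0 ^ 2) ^ 7) := ((c3.pow_pow 2 2).pow_right 7)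
  rw [e1']
  unfold y2
  calc Z ^ 4 * ((s 3 ^ 2)⁻¹ * (s 0 ^ 2) ^ 7) * ((D3 ^ 2) ^ 4 * s 3 ^ 2 * ((s 0 ^ 2)⁻¹) ^ 7)
      = Z ^ 4 * (((s 3 ^ 2)⁻¹ * (s 0 ^ 2) ^ 7) * (D3 ^ 2) ^ 4) *
        (s 3 ^ 2 * ((s 0 ^ 2)⁻¹) ^ 7) := by simp only [mul_assoc]
    _ = Z ^ 4 * ((D3 ^ 2) ^ 4 * ((s 3 ^ 2)⁻¹ * (s 0 ^ 2) ^ 7)) *
        (s 3 ^ 2 * ((s 0 ^ 2)⁻¹) ^ 7) := by rw [c7.eq]
    _ = (Z ^ 4 * (D3 ^ 2) ^ 4) * ((s 3 ^ 2)⁻¹ * ((s 0 ^ 2) ^ 7 * s 3 ^ 2) *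
        ((s 0 ^ 2)⁻¹) ^ 7) := by simp only [mul_assoc]
    _ = (Δ 5 ^ 2) ^ 4 := by
      rw [e2', ← c10.eq, inv_mul_cancel_left, inv_pow, mul_inv_cancel, mul_one]

lemma x1_y2_pow (n : ℕ) : (x1 ^ 2) ^ n * y2 ^ n = ((Δ 5 ^ 2) ^ 4) ^ n := by
  have h : x1 ^ 2 = (Δ 5 ^ 2) ^ 4 * y2⁻¹ := by rw [← x1_y2, mul_inv_cancel_right]
  have h0 : ∀ i, Commute ((Δ 5 ^ 2) ^ 4) (s i) := fun i => (Δ_sq_s i).pow_left 4
  have hD : Commute ((Δ 5 ^ 2) ^ 4) D3 := (Δ_sq_ev [0, 1, 0]).pow_left 4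
  have h1 : Commute ((Δ 5 ^ 2) ^ 4) y2 := by
    unfold y2
    exact (((hD.pow_right 2).pow_right 4).mul_right ((h0 3).pow_right 2)).mul_right
      (((h0 0).pow_right 2).inv_right.pow_right 7)
  have h2 : Commute (x1 ^ 2) y2 := by
    rw [h]
    exact h1.mul_left (Commute.refl _).inv_left
  rw [← h2.mul_pow, x1_y2]

end Pool.Agent.BraidOut
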