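import Pool.Agent.BraidOut.Gcd

/-!
# The left normal forms and the preferred prefixes of the two braids
-/

set_option autoImplicit false

namespace Pool.Agent.BraidOut

open Pool.Agent.BraidSliding

/-- a word of Garside's element -/
def DW : List (Fin 4) := [0, 1, 2, 3, 0, 1, 2, 0, 1, 0]

def MD : List ℕ := [0, 1, 1, 1, 1, 1, 0, 1, 1, 1, 1, 1, 0, 1, 1, 1, 1, 1, 0, 1, 1, 1, 1, 1, 0]

def FD : List ℕ := [4, 3, 2, 1, 0]

lemma mat_DW : mat DW = MD := by decide +kernel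
lemma fin_DW : fin DW = FD := by decide +kernel

lemma nfs_DW : nfs S0 DW = some [4, 3, 2, 1] := by decide +kernel

lemma Δ_DW : Δ 5 = ev DW := Δ_eq

/-- the braids of a list of words -/
def evl (l : List (List (Fin 4))) : List (Braid 5) := l.map ev

lemma evl_prod (l : List (List (Fin 4))) : (evl l).prod = ev l.flatten := by
  induction l with
  | nil => rfl
  | cons a l ih =>
    have h : evl (a :: l) = ev a :: evl l := rfl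
    rw [h, List.prod_cons, ih, List.flatten_cons, ev_append]

lemma pre_Δ {a t : List (Fin 4)} {D : List ℕ} (h1 : nfs S0 a = some D)
    (h2 : nfs D t = some [4, 3, 2, 1]) : Pre (ev a) (Δ 5) := by
  rw [Δ_DW]
  exact pre_of_nfs h1 h2 nfs_DW

lemma step {a : List (Fin 4)} {l : List (List (Fin 4))} {L : List (List ℕ × List (Fin 4))}
    {D M F : List ℕ} {t : List (Fin 4)} (hM : mat (a :: l).flatten = M)
    (hF : fin (a :: l).flatten = F) (h0 : ∃ t, (S0, t) ∈ L)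
    (h : chkg L D MD FD M F = true) (hd : nfs S0 a = some D)
    (hD : nfs D t = some [4, 3, 2, 1]) (hl : Chain (evl l)) : Chain (evl (a :: l)) := by
  have e : evl (a :: l) = ev a :: evl l := rfl
  rw [e, chain_cons]
  refine ⟨?_, hl⟩
  rw [evl_prod, ← ev_append, ← List.flatten_cons, Δ_DW]
  refine gcd_of_chk h0 ?_ hd ?_ ?_
  · rw [mat_DW, fin_DW, hM, hF]
    exact h
  · rw [← Δ_DW]
    exact pre_Δ hd hD
  · exact pre_iff.mpr ⟨l.flatten, by rw [List.flatten_cons, ev_append]⟩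

lemma simple_of {a t : List (Fin 4)} {D : List ℕ} (h1 : nfs S0 a = some D)
    (h2 : nfs D t = some [4, 3, 2, 1]) (h3 : a ≠ []) (h4 : a.length ≠ 10) :
    IsSimple (ev a) ∧ ev a ≠ 1 ∧ ev a ≠ Δ 5 :=
  ⟨⟨ev_mem a, pre_Δ h1 h2⟩, fun h => h3 (ev_eq_one h), ev_ne_Δ h4⟩

lemma pref_unique {x : Braid 5} {l : List (Braid 5)} {a b d d' : Braid 5} (hl : IsLNF x 0 l)
    (ha : l.head? = some a) (hb : l.getLast? = some b) (pa : a ∈ Pos 5)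
    (pb : b⁻¹ * Δ 5 ∈ Pos 5) (hg : IsGcd a (b⁻¹ * Δ 5) d) (hd : d ∈ Pos 5)
    (h : IsPreferredPrefix x d') : d' = d := by
  obtain ⟨p, l', hl', h1⟩ := h
  obtain ⟨rfl, rfl⟩ := lnf_unique hl hl'
  rcases h1 with ⟨h1, _⟩ | ⟨u, v, hu, hv, hg'⟩
  · rw [h1] at ha
    exact absurd ha (by simp)
  · rw [ha] at hu
    rw [hb] at hv
    obtain rfl := Option.some.inj hu
    obtain rfl := Option.some.inj hv
    have hg'' : IsGcd a (b⁻¹ * Δ 5) d' := by simpa using hg'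
    exact gcd_unique (gcd_pos pa pb hg'') hd hg'' hg

lemma pref_exists {x : Braid 5} {l : List (Braid 5)} {a b d : Braid 5} (hl : IsLNF x 0 l)
    (ha : l.head? = some a) (hb : l.getLast? = some b) (hg : IsGcd a (b⁻¹ * Δ 5) d) :
    IsPreferredPrefix x d :=
  ⟨0, l, hl, Or.inr ⟨a, b, ha, hb, by simpa using hg⟩⟩

def L0 : List (List ℕ × List (Fin 4)) :=
  [([0, 0, 0, 0], [0]), ([0, 0, 0, 1], [])]

lemma chainX_6 : Chain (evl [[0]]) :=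
  step (L := L0) (D := [0, 0, 0, 1]) (t := [1, 0, 2, 1, 0, 3, 2, 1, 0])
    (M := [0, 1, 0, 0, 0, 1, 0, 0, 0, 0, 0, 0, 0, 0, 0, 0, 0, 0, 0, 0, 0, 0, 0, 0, 0])
    (F := [1, 0, 2, 3, 4]) (by decide +kernel) (by decide +kernel) ⟨_, List.mem_cons_self⟩
    (by decide +kernel) (by decide +kernel) (by decide +kernel) chain_nil

def L01023 : List (List ℕ × List (Fin 4)) :=
  [([0, 0, 0, 0], [0, 1, 0, 2, 3]), ([0, 0, 1, 0], [0, 1, 2, 3]), ([0, 0, 0, 1], [1, 0, 2, 3]),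
   ([0, 0, 2, 0], [1, 2, 3]), ([0, 0, 1, 1], [0, 2, 3]), ([0, 0, 2, 1], [2, 3]),
   ([0, 1, 1, 1], [0, 3]), ([0, 1, 2, 1], [3]), ([1, 1, 1, 1], [0]), ([1, 1, 2, 1], [])]

lemma chainX_5 : Chain (evl [[0, 1, 0, 2, 3],
    [0]]) :=
  step (L := L01023) (D := [1, 1, 2, 1]) (t := [1, 0, 2, 1, 0])
    (M := [0, 1, 1, 1, 1, 1, 0, 2, 0, 0, 1, 2, 0, 0, 0, 1, 0, 0, 0, 0, 1, 0, 0, 0, 0])
    (F := [4, 0, 1, 2, 3]) (by decide +kernel) (by decide +kernel) ⟨_, List.mem_cons_self⟩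
    (by decide +kernel) (by decide +kernel) (by decide +kernel) chainX_6

def L0210 : List (List ℕ × List (Fin 4)) :=
  [([0, 0, 0, 0], [0, 2, 1, 0]), ([0, 1, 0, 0], [0, 1, 0]), ([0, 0, 0, 1], [2, 1, 0]),
   ([0, 2, 0, 0], [0, 1]), ([0, 1, 0, 1], [1, 0]), ([0, 3, 0, 0], [1]), ([0, 2, 0, 1], [0]),
   ([0, 3, 0, 1], [])]

lemma chainX_4 : Chain (evl [[0, 2, 1, 0],
    [0, 1, 0, 2, 3],
    [0]]) :=
  step (L := L0210) (D := [0, 3, 0, 1]) (t := [2, 1, 3, 2, 1, 0])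
    (M := [0, 3, 0, 2, 0, 3, 0, 0, 2, 0, 0, 0, 0, 2, 0, 2, 2, 2, 0, 1, 0, 0, 0, 1, 0])
    (F := [1, 0, 2, 4, 3]) (by decide +kernel) (by decide +kernel) ⟨_, List.mem_cons_self⟩
    (by decide +kernel) (by decide +kernel) (by decide +kernel) chainX_5

def L0102 : List (List ℕ × List (Fin 4)) :=
  [([0, 0, 0, 0], [0, 1, 0, 2]), ([0, 0, 1, 0], [0, 1, 2]), ([0, 0, 0, 1], [1, 0, 2]),
   ([0, 0, 2, 0], [1, 2]), ([0, 0, 1, 1], [0, 2]), ([0, 0, 2, 1], [2]), ([0, 1, 1, 1], [0]),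
   ([0, 1, 2, 1], [])]

lemma chainX_3 : Chain (evl [[0, 1, 0, 2],
    [0, 2, 1, 0],
    [0, 1, 0, 2, 3],
    [0]]) :=
  step (L := L0102) (D := [0, 1, 2, 1]) (t := [1, 0, 3, 2, 1, 0])
    (M := [0, 3, 3, 3, 1, 3, 0, 4, 0, 0, 3, 4, 0, 0, 0, 3, 0, 0, 0, 0, 1, 0, 0, 0, 0])
    (F := [4, 0, 1, 2, 3]) (by decide +kernel) (by decide +kernel) ⟨_, List.mem_cons_self⟩
    (by decide +kernel) (by decide +kernel) (by decide +kernel) chainX_4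

lemma chainX_2 : Chain (evl [[0, 2, 1, 0],
    [0, 1, 0, 2],
    [0, 2, 1, 0],
    [0, 1, 0, 2, 3],
    [0]]) :=
  step (L := L0210) (D := [0, 3, 0, 1]) (t := [2, 1, 3, 2, 1, 0])
    (M := [0, 5, 0, 4, 0, 5, 0, 0, 4, 0, 0, 0, 0, 4, 0, 4, 4, 4, 0, 1, 0, 0, 0, 1, 0])
    (F := [1, 0, 2, 4, 3]) (by decide +kernel) (by decide +kernel) ⟨_, List.mem_cons_self⟩
    (by decide +kernel) (by decide +kernel) (by decide +kernel) chainX_3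

def L01021032 : List (List ℕ × List (Fin 4)) :=
  [([0, 0, 0, 0], [0, 1, 0, 2, 1, 0, 3, 2]), ([0, 1, 0, 0], [0, 1, 0, 2, 1, 3, 2]),
   ([0, 0, 1, 0], [0, 1, 2, 1, 0, 3, 2]), ([0, 0, 0, 1], [1, 0, 2, 1, 0, 3, 2]),
   ([0, 2, 0, 0], [0, 1, 2, 1, 3, 2]), ([0, 1, 1, 0], [0, 1, 0, 2, 3, 2]),
   ([0, 1, 0, 1], [1, 0, 2, 1, 3, 2]), ([0, 0, 2, 0], [1, 2, 1, 0, 3, 2]),
   ([0, 0, 1, 1], [0, 2, 1, 0, 3, 2]), ([0, 2, 1, 0], [0, 1, 2, 3, 2]),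
   ([1, 1, 1, 0], [0, 1, 0, 2, 3]), ([0, 3, 0, 0], [1, 2, 1, 3, 2]),
   ([0, 1, 2, 0], [1, 0, 2, 3, 2]), ([0, 2, 0, 1], [0, 2, 1, 3, 2]),
   ([0, 0, 2, 1], [2, 1, 0, 3, 2]), ([0, 1, 1, 1], [0, 1, 0, 3, 2]),
   ([1, 2, 1, 0], [0, 1, 2, 3]), ([0, 3, 1, 0], [1, 2, 3, 2]), ([1, 1, 2, 0], [1, 0, 2, 3]),
   ([0, 3, 0, 1], [2, 1, 3, 2]), ([0, 2, 2, 0], [0, 2, 3, 2]), ([0, 2, 1, 1], [0, 1, 3, 2]),
   ([0, 1, 2, 1], [1, 0, 3, 2]), ([1, 1, 1, 1], [0, 1, 0, 2]), ([1, 3, 1, 0], [1, 2, 3]),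
   ([0, 3, 2, 0], [2, 3, 2]), ([1, 2, 2, 0], [0, 2, 3]), ([0, 3, 1, 1], [1, 3, 2]),
   ([0, 2, 2, 1], [0, 3, 2]), ([1, 2, 1, 1], [0, 1, 2]), ([1, 1, 2, 1], [1, 0, 2]),
   ([1, 3, 2, 0], [2, 3]), ([0, 3, 2, 1], [3, 2]), ([2, 2, 2, 0], [0, 3]),
   ([1, 3, 1, 1], [1, 2]), ([1, 2, 2, 1], [0, 2]), ([2, 3, 2, 0], [3]), ([1, 3, 2, 1], [2]),
   ([2, 2, 2, 1], [0]), ([2, 3, 2, 1], [])]

lemma chainX_1 : Chain (evl [[0, 1, 0, 2, 1, 0, 3, 2],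
    [0, 2, 1, 0],
    [0, 1, 0, 2],
    [0, 2, 1, 0],
    [0, 1, 0, 2, 3],
    [0]]) :=
  step (L := L01021032) (D := [2, 3, 2, 1]) (t := [1, 0])
    (M := [0, 2, 1, 1, 1, 2, 0, 5, 5, 5, 1, 5, 0, 6, 0, 1, 5, 6, 0, 0, 1, 5, 0, 0, 0])
    (F := [3, 4, 0, 1, 2]) (by decide +kernel) (by decide +kernel) ⟨_, List.mem_cons_self⟩
    (by decide +kernel) (by decide +kernel) (by decide +kernel) chainX_2

def L02103210 : List (List ℕ × List (Fin 4)) :=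
  [([0, 0, 0, 0], [0, 2, 1, 0, 3, 2, 1, 0]), ([1, 0, 0, 0], [0, 2, 1, 0, 3, 2, 1]),
   ([0, 1, 0, 0], [0, 1, 0, 3, 2, 1, 0]), ([0, 0, 0, 1], [2, 1, 0, 3, 2, 1, 0]),
   ([2, 0, 0, 0], [0, 1, 0, 3, 2, 1]), ([1, 1, 0, 0], [0, 1, 0, 2, 1, 0]),
   ([0, 2, 0, 0], [0, 1, 3, 2, 1, 0]), ([1, 0, 0, 1], [2, 1, 0, 3, 2, 1]),
   ([0, 1, 0, 1], [1, 0, 3, 2, 1, 0]), ([2, 1, 0, 0], [0, 1, 0, 2, 1]),
   ([3, 0, 0, 0], [0, 1, 3, 2, 1]), ([1, 2, 0, 0], [0, 1, 2, 1, 0]),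
   ([2, 0, 0, 1], [1, 0, 3, 2, 1]), ([1, 1, 0, 1], [1, 0, 2, 1, 0]),
   ([0, 3, 0, 0], [1, 3, 2, 1, 0]), ([0, 2, 0, 1], [0, 3, 2, 1, 0]),
   ([3, 1, 0, 0], [0, 1, 2, 1]), ([2, 2, 0, 0], [0, 1, 0, 2]), ([2, 1, 0, 1], [1, 0, 2, 1]),
   ([4, 0, 0, 0], [1, 3, 2, 1]), ([1, 3, 0, 0], [1, 2, 1, 0]), ([3, 0, 0, 1], [0, 3, 2, 1]),
   ([1, 2, 0, 1], [0, 2, 1, 0]), ([0, 3, 0, 1], [3, 2, 1, 0]), ([3, 2, 0, 0], [0, 1, 2]),
   ([4, 1, 0, 0], [1, 2, 1]), ([2, 3, 0, 0], [1, 0, 2]), ([3, 1, 0, 1], [0, 2, 1]),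
   ([4, 0, 0, 1], [3, 2, 1]), ([1, 3, 0, 1], [2, 1, 0]), ([2, 2, 0, 1], [0, 1, 0]),
   ([4, 2, 0, 0], [1, 2]), ([4, 1, 0, 1], [2, 1]), ([3, 3, 0, 0], [0, 2]),
   ([3, 2, 0, 1], [0, 1]), ([2, 3, 0, 1], [1, 0]), ([4, 3, 0, 0], [2]), ([4, 2, 0, 1], [1]),
   ([3, 3, 0, 1], [0]), ([4, 3, 0, 1], [])]

lemma chainX_0 : Chain (evl [[0, 2, 1, 0, 3, 2, 1, 0],
    [0, 1, 0, 2, 1, 0, 3, 2],
    [0, 2, 1, 0],
    [0, 1, 0, 2],
    [0, 2, 1, 0],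
    [0, 1, 0, 2, 3],
    [0]]) :=
  step (L := L02103210) (D := [4, 3, 0, 1]) (t := [3, 2])
    (M := [0, 7, 0, 6, 2, 7, 0, 0, 6, 2, 0, 0, 0, 6, 2, 6, 6, 6, 0, 3, 2, 2, 2, 3, 0])
    (F := [1, 0, 2, 4, 3]) (by decide +kernel) (by decide +kernel) ⟨_, List.mem_cons_self⟩
    (by decide +kernel) (by decide +kernel) (by decide +kernel) chainX_1

/-- factors -/
def fX : List (List (Fin 4)) :=
  [[0, 2, 1, 0, 3, 2, 1, 0],
    [0, 1, 0, 2, 1, 0, 3, 2],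
    [0, 2, 1, 0],
    [0, 1, 0, 2],
    [0, 2, 1, 0],
    [0, 1, 0, 2, 3],
    [0]]

lemma lnf_fX : IsLNF (ev (fX).flatten) 0 (evl fX) := by
  refine ⟨by rw [zpow_zero, one_mul, evl_prod], ?_, chainX_0⟩
  intro c hc
  unfold evl at hc
  obtain ⟨a, ha, rfl⟩ := List.mem_map.mp hc
  simp only [fX, List.mem_cons, List.not_mem_nil, or_false] at ha
  rcases ha with rfl | rfl | rfl | rfl | rfl | rfl | rfl
  · exact simple_of (D := [4, 3, 0, 1]) (t := [3, 2])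
      (by decide +kernel) (by decide +kernel) (by decide) (by decide)
  · exact simple_of (D := [2, 3, 2, 1]) (t := [1, 0])
      (by decide +kernel) (by decide +kernel) (by decide) (by decide)
  · exact simple_of (D := [0, 3, 0, 1]) (t := [2, 1, 3, 2, 1, 0])
      (by decide +kernel) (by decide +kernel) (by decide) (by decide)
  · exact simple_of (D := [0, 1, 2, 1]) (t := [1, 0, 3, 2, 1, 0])
      (by decide +kernel) (by decide +kernel) (by decide) (by decide)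
  · exact simple_of (D := [0, 3, 0, 1]) (t := [2, 1, 3, 2, 1, 0])
      (by decide +kernel) (by decide +kernel) (by decide) (by decide)
  · exact simple_of (D := [1, 1, 2, 1]) (t := [1, 0, 2, 1, 0])
      (by decide +kernel) (by decide +kernel) (by decide) (by decide)
  · exact simple_of (D := [0, 0, 0, 1]) (t := [1, 0, 2, 1, 0, 3, 2, 1, 0])
      (by decide +kernel) (by decide +kernel) (by decide) (by decide)

def L2 : List (List ℕ × List (Fin 4)) :=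
  [([0, 0, 0, 0], [2]), ([0, 1, 0, 0], [])]

lemma chainY_6 : Chain (evl [[2]]) :=
  step (L := L2) (D := [0, 1, 0, 0]) (t := [0, 1, 0, 2, 1, 3, 2, 1, 0])
    (M := [0, 0, 0, 0, 0, 0, 0, 0, 0, 0, 0, 0, 0, 1, 0, 0, 0, 1, 0, 0, 0, 0, 0, 0, 0])
    (F := [0, 1, 3, 2, 4]) (by decide +kernel) (by decide +kernel) ⟨_, List.mem_cons_self⟩
    (by decide +kernel) (by decide +kernel) (by decide +kernel) chain_nil

def L13210 : List (List ℕ × List (Fin 4)) :=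
  [([0, 0, 0, 0], [1, 3, 2, 1, 0]), ([1, 0, 0, 0], [1, 2, 1, 0]), ([0, 0, 1, 0], [3, 2, 1, 0]),
   ([2, 0, 0, 0], [1, 0, 2]), ([1, 0, 1, 0], [2, 1, 0]), ([3, 0, 0, 0], [0, 2]),
   ([2, 0, 1, 0], [1, 0]), ([3, 0, 1, 0], [0]), ([4, 0, 0, 0], [2]), ([4, 0, 1, 0], [])]

lemma chainY_5 : Chain (evl [[1, 3, 2, 1, 0],
    [2]]) :=
  step (L := L13210) (D := [4, 0, 1, 0]) (t := [1, 2, 3, 2, 1])
    (M := [0, 0, 0, 0, 1, 0, 0, 2, 0, 1, 0, 2, 0, 0, 1, 0, 0, 0, 0, 1, 1, 1, 1, 1, 0])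
    (F := [1, 2, 3, 4, 0]) (by decide +kernel) (by decide +kernel) ⟨_, List.mem_cons_self⟩
    (by decide +kernel) (by decide +kernel) (by decide +kernel) chainY_6

def L1213 : List (List ℕ × List (Fin 4)) :=
  [([0, 0, 0, 0], [1, 2, 1, 3]), ([0, 1, 0, 0], [1, 2, 3]), ([0, 0, 1, 0], [2, 1, 3]),
   ([0, 2, 0, 0], [2, 3]), ([0, 1, 1, 0], [1, 3]), ([0, 2, 1, 0], [3]), ([1, 1, 1, 0], [1]),
   ([1, 2, 1, 0], [])]

lemma chainY_4 : Chain (evl [[1, 2, 1, 3],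
    [1, 3, 2, 1, 0],
    [2]]) :=
  step (L := L1213) (D := [1, 2, 1, 0]) (t := [0, 1, 2, 1, 0, 3])
    (M := [0, 1, 0, 0, 0, 1, 0, 2, 2, 2, 0, 2, 0, 3, 0, 0, 2, 3, 0, 0, 0, 2, 0, 0, 0])
    (F := [1, 0, 3, 2, 4]) (by decide +kernel) (by decide +kernel) ⟨_, List.mem_cons_self⟩
    (by decide +kernel) (by decide +kernel) (by decide +kernel) chainY_5

def L1321 : List (List ℕ × List (Fin 4)) :=
  [([0, 0, 0, 0], [1, 3, 2, 1]), ([1, 0, 0, 0], [1, 2, 1]), ([0, 0, 1, 0], [3, 2, 1]),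
   ([2, 0, 0, 0], [1, 2]), ([1, 0, 1, 0], [2, 1]), ([3, 0, 0, 0], [2]), ([2, 0, 1, 0], [1]),
   ([3, 0, 1, 0], [])]

lemma chainY_3 : Chain (evl [[1, 3, 2, 1],
    [1, 2, 1, 3],
    [1, 3, 2, 1, 0],
    [2]]) :=
  step (L := L1321) (D := [3, 0, 1, 0]) (t := [0, 1, 2, 3, 2, 1])
    (M := [0, 0, 0, 0, 1, 0, 0, 4, 0, 3, 0, 4, 0, 0, 3, 0, 0, 0, 0, 3, 1, 3, 3, 3, 0])
    (F := [1, 2, 3, 4, 0]) (by decide +kernel) (by decide +kernel) ⟨_, List.mem_cons_self⟩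
    (by decide +kernel) (by decide +kernel) (by decide +kernel) chainY_4

lemma chainY_2 : Chain (evl [[1, 2, 1, 3],
    [1, 3, 2, 1],
    [1, 2, 1, 3],
    [1, 3, 2, 1, 0],
    [2]]) :=
  step (L := L1213) (D := [1, 2, 1, 0]) (t := [0, 1, 2, 1, 0, 3])
    (M := [0, 1, 0, 0, 0, 1, 0, 4, 4, 4, 0, 4, 0, 5, 0, 0, 4, 5, 0, 0, 0, 4, 0, 0, 0])
    (F := [1, 0, 3, 2, 4]) (by decide +kernel) (by decide +kernel) ⟨_, List.mem_cons_self⟩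
    (by decide +kernel) (by decide +kernel) (by decide +kernel) chainY_3

lemma chainY_1 : Chain (evl [[0, 2, 1, 0, 3, 2, 1, 0],
    [1, 2, 1, 3],
    [1, 3, 2, 1],
    [1, 2, 1, 3],
    [1, 3, 2, 1, 0],
    [2]]) :=
  step (L := L02103210) (D := [4, 3, 0, 1]) (t := [3, 2])
    (M := [0, 6, 0, 5, 1, 6, 0, 0, 5, 1, 0, 0, 0, 5, 1, 5, 5, 5, 0, 2, 1, 1, 1, 2, 0])
    (F := [2, 3, 4, 0, 1]) (by decide +kernel) (by decide +kernel) ⟨_, List.mem_cons_self⟩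
    (by decide +kernel) (by decide +kernel) (by decide +kernel) chainY_2

lemma chainY_0 : Chain (evl [[0, 1, 0, 2, 1, 0, 3, 2],
    [0, 2, 1, 0, 3, 2, 1, 0],
    [1, 2, 1, 3],
    [1, 3, 2, 1],
    [1, 2, 1, 3],
    [1, 3, 2, 1, 0],
    [2]]) :=
  step (L := L01021032) (D := [2, 3, 2, 1]) (t := [1, 0])
    (M := [0, 3, 2, 2, 2, 3, 0, 6, 6, 6, 2, 6, 0, 7, 0, 2, 6, 7, 0, 0, 2, 6, 0, 0, 0])
    (F := [1, 0, 3, 2, 4]) (by decide +kernel) (by decide +kernel) ⟨_, List.mem_cons_self⟩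
    (by decide +kernel) (by decide +kernel) (by decide +kernel) chainY_1

/-- factors -/
def fY : List (List (Fin 4)) :=
  [[0, 1, 0, 2, 1, 0, 3, 2],
    [0, 2, 1, 0, 3, 2, 1, 0],
    [1, 2, 1, 3],
    [1, 3, 2, 1],
    [1, 2, 1, 3],
    [1, 3, 2, 1, 0],
    [2]]

lemma lnf_fY : IsLNF (ev (fY).flatten) 0 (evl fY) := by
  refine ⟨by rw [zpow_zero, one_mul, evl_prod], ?_, chainY_0⟩
  intro c hc
  unfold evl at hc
  obtain ⟨a, ha, rfl⟩ := List.mem_map.mp hc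
  simp only [fY, List.mem_cons, List.not_mem_nil, or_false] at ha
  rcases ha with rfl | rfl | rfl | rfl | rfl | rfl | rfl
  · exact simple_of (D := [2, 3, 2, 1]) (t := [1, 0])
      (by decide +kernel) (by decide +kernel) (by decide) (by decide)
  · exact simple_of (D := [4, 3, 0, 1]) (t := [3, 2])
      (by decide +kernel) (by decide +kernel) (by decide) (by decide)
  · exact simple_of (D := [1, 2, 1, 0]) (t := [0, 1, 2, 1, 0, 3])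
      (by decide +kernel) (by decide +kernel) (by decide) (by decide)
  · exact simple_of (D := [3, 0, 1, 0]) (t := [0, 1, 2, 3, 2, 1])
      (by decide +kernel) (by decide +kernel) (by decide) (by decide)
  · exact simple_of (D := [1, 2, 1, 0]) (t := [0, 1, 2, 1, 0, 3])
      (by decide +kernel) (by decide +kernel) (by decide) (by decide)
  · exact simple_of (D := [4, 0, 1, 0]) (t := [1, 2, 3, 2, 1])
      (by decide +kernel) (by decide +kernel) (by decide) (by decide)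
  · exact simple_of (D := [0, 1, 0, 0]) (t := [0, 1, 0, 2, 1, 3, 2, 1, 0])
      (by decide +kernel) (by decide +kernel) (by decide) (by decide)

def L012 : List (List ℕ × List (Fin 4)) :=
  [([0, 0, 0, 0], [0, 1, 2]), ([0, 0, 0, 1], [1, 2]), ([0, 0, 1, 1], [2]), ([0, 1, 1, 1], [])]

lemma chain_tw_1 : Chain (evl [[0, 1, 2]]) :=
  step (L := L012) (D := [0, 1, 1, 1]) (t := [0, 1, 0, 3, 2, 1, 0])
    (M := [0, 1, 1, 1, 0, 1, 0, 0, 0, 0, 1, 0, 0, 0, 0, 1, 0, 0, 0, 0, 0, 0, 0, 0, 0])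
    (F := [3, 0, 1, 2, 4]) (by decide +kernel) (by decide +kernel) ⟨_, List.mem_cons_self⟩
    (by decide +kernel) (by decide +kernel) (by decide +kernel) chain_nil

def L210 : List (List ℕ × List (Fin 4)) :=
  [([0, 0, 0, 0], [2, 1, 0]), ([0, 1, 0, 0], [1, 0]), ([0, 2, 0, 0], [0]), ([0, 3, 0, 0], [])]

lemma chain_tw_0 : Chain (evl [[2, 1, 0],
    [0, 1, 2]]) :=
  step (L := L210) (D := [0, 3, 0, 0]) (t := [1, 2, 1, 3, 2, 1, 0])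
    (M := [0, 0, 0, 2, 0, 0, 0, 0, 2, 0, 0, 0, 0, 2, 0, 2, 2, 2, 0, 0, 0, 0, 0, 0, 0])
    (F := [0, 1, 2, 3, 4]) (by decide +kernel) (by decide +kernel) ⟨_, List.mem_cons_self⟩
    (by decide +kernel) (by decide +kernel) (by decide +kernel) chain_tw_1

/-- factors -/
def ftw : List (List (Fin 4)) :=
  [[2, 1, 0],
    [0, 1, 2]]

lemma lnf_ftw : IsLNF (ev (ftw).flatten) 0 (evl ftw) := by
  refine ⟨by rw [zpow_zero, one_mul, evl_prod], ?_, chain_tw_0⟩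
  intro c hc
  unfold evl at hc
  obtain ⟨a, ha, rfl⟩ := List.mem_map.mp hc
  simp only [ftw, List.mem_cons, List.not_mem_nil, or_false] at ha
  rcases ha with rfl | rfl
  · exact simple_of (D := [0, 3, 0, 0]) (t := [1, 2, 1, 3, 2, 1, 0])
      (by decide +kernel) (by decide +kernel) (by decide) (by decide)
  · exact simple_of (D := [0, 1, 1, 1]) (t := [0, 1, 0, 3, 2, 1, 0])
      (by decide +kernel) (by decide +kernel) (by decide) (by decide)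

def L321 : List (List ℕ × List (Fin 4)) :=
  [([0, 0, 0, 0], [3, 2, 1]), ([1, 0, 0, 0], [2, 1]), ([2, 0, 0, 0], [1]), ([3, 0, 0, 0], [])]

lemma chain_tw2_1 : Chain (evl [[3, 2, 1]]) :=
  step (L := L321) (D := [3, 0, 0, 0]) (t := [0, 1, 2, 1, 3, 2, 1])
    (M := [0, 0, 0, 0, 0, 0, 0, 0, 0, 1, 0, 0, 0, 0, 1, 0, 0, 0, 0, 1, 0, 1, 1, 1, 0])
    (F := [0, 2, 3, 4, 1]) (by decide +kernel) (by decide +kernel) ⟨_, List.mem_cons_self⟩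
    (by decide +kernel) (by decide +kernel) (by decide +kernel) chain_nil

def L123 : List (List ℕ × List (Fin 4)) :=
  [([0, 0, 0, 0], [1, 2, 3]), ([0, 0, 1, 0], [2, 3]), ([0, 1, 1, 0], [3]), ([1, 1, 1, 0], [])]

lemma chain_tw2_0 : Chain (evl [[1, 2, 3],
    [3, 2, 1]]) :=
  step (L := L123) (D := [1, 1, 1, 0]) (t := [0, 1, 0, 2, 1, 0, 3])
    (M := [0, 0, 0, 0, 0, 0, 0, 2, 2, 2, 0, 2, 0, 0, 0, 0, 2, 0, 0, 0, 0, 2, 0, 0, 0])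
    (F := [0, 1, 2, 3, 4]) (by decide +kernel) (by decide +kernel) ⟨_, List.mem_cons_self⟩
    (by decide +kernel) (by decide +kernel) (by decide +kernel) chain_tw2_1

/-- factors -/
def ftw2 : List (List (Fin 4)) :=
  [[1, 2, 3],
    [3, 2, 1]]

lemma lnf_ftw2 : IsLNF (ev (ftw2).flatten) 0 (evl ftw2) := by
  refine ⟨by rw [zpow_zero, one_mul, evl_prod], ?_, chain_tw2_0⟩
  intro c hc
  unfold evl at hc
  obtain ⟨a, ha, rfl⟩ := List.mem_map.mp hc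
  simp only [ftw2, List.mem_cons, List.not_mem_nil, or_false] at ha
  rcases ha with rfl | rfl
  · exact simple_of (D := [1, 1, 1, 0]) (t := [0, 1, 0, 2, 1, 0, 3])
      (by decide +kernel) (by decide +kernel) (by decide) (by decide)
  · exact simple_of (D := [3, 0, 0, 0]) (t := [0, 1, 2, 1, 3, 2, 1])
      (by decide +kernel) (by decide +kernel) (by decide) (by decide)

def L2103210 : List (List ℕ × List (Fin 4)) :=
  [([0, 0, 0, 0], [2, 1, 0, 3, 2, 1, 0]), ([1, 0, 0, 0], [2, 1, 0, 3, 2, 1]),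
   ([0, 1, 0, 0], [1, 0, 3, 2, 1, 0]), ([2, 0, 0, 0], [1, 0, 3, 2, 1]),
   ([1, 1, 0, 0], [1, 0, 2, 1, 0]), ([0, 2, 0, 0], [0, 3, 2, 1, 0]),
   ([2, 1, 0, 0], [1, 0, 2, 1]), ([3, 0, 0, 0], [0, 3, 2, 1]), ([1, 2, 0, 0], [0, 2, 1, 0]),
   ([0, 3, 0, 0], [3, 2, 1, 0]), ([3, 1, 0, 0], [0, 2, 1]), ([2, 2, 0, 0], [0, 1, 0]),
   ([4, 0, 0, 0], [3, 2, 1]), ([1, 3, 0, 0], [2, 1, 0]), ([3, 2, 0, 0], [0, 1]),
   ([4, 1, 0, 0], [2, 1]), ([2, 3, 0, 0], [1, 0]), ([4, 2, 0, 0], [1]), ([3, 3, 0, 0], [0]),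
   ([4, 3, 0, 0], [])]

/-- the preferred prefix -/
def E1 : List (Fin 4) := [2, 1, 0, 3, 2, 1, 0]

lemma compl_X : (ev [0])⁻¹ * Δ 5 = ev [1, 0, 2, 1, 0, 3, 2, 1, 0] := by
  have h : ev [0] * ev [1, 0, 2, 1, 0, 3, 2, 1, 0] = ev DW :=
    ev_eq_of_nfs (D := [4, 3, 2, 1]) (by decide +kernel) nfs_DW
  rw [Δ_DW, ← h, inv_mul_cancel_left]

lemma gcd_X : IsGcd (ev [0, 2, 1, 0, 3, 2, 1, 0]) ((ev [0])⁻¹ * Δ 5) (ev E1) := by
  rw [compl_X]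
  refine gcd_of_chk (L := L2103210) (D := [4, 3, 0, 0]) ⟨_, List.mem_cons_self⟩
    (by decide +kernel) (by decide +kernel) ?_ ?_
  · exact pre_of_nfs (S := [4, 3, 0, 0]) (t := [2]) (D := [4, 3, 0, 1]) (by decide +kernel)
      (by decide +kernel) (by decide +kernel)
  · exact pre_of_nfs (S := [4, 3, 0, 0]) (t := [3, 2]) (D := [4, 3, 2, 0]) (by decide +kernel)
      (by decide +kernel) (by decide +kernel)

lemma pref_X : IsPreferredPrefix (ev (fX).flatten) (ev E1) :=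
  pref_exists lnf_fX rfl rfl gcd_X

lemma pref_X_unique {d : Braid 5} (h : IsPreferredPrefix (ev (fX).flatten) d) : d = ev E1 :=
  pref_unique (a := ev [0, 2, 1, 0, 3, 2, 1, 0]) (b := ev [0]) lnf_fX rfl rfl (ev_mem _)
    (by rw [compl_X]; exact ev_mem _) gcd_X (ev_mem _) h

def L1230123 : List (List ℕ × List (Fin 4)) :=
  [([0, 0, 0, 0], [0, 1, 0, 2, 1, 3, 2]), ([0, 0, 1, 0], [0, 1, 2, 1, 3, 2]),
   ([0, 0, 0, 1], [1, 0, 2, 1, 3, 2]), ([0, 1, 1, 0], [0, 1, 2, 3, 2]),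
   ([0, 0, 2, 0], [1, 2, 1, 3, 2]), ([0, 0, 1, 1], [0, 2, 1, 3, 2]),
   ([1, 1, 1, 0], [0, 1, 2, 3]), ([0, 1, 2, 0], [1, 2, 3, 2]), ([0, 0, 2, 1], [2, 1, 3, 2]),
   ([0, 1, 1, 1], [0, 1, 3, 2]), ([1, 1, 2, 0], [1, 2, 3]), ([0, 2, 2, 0], [2, 3, 2]),
   ([0, 1, 2, 1], [1, 3, 2]), ([1, 1, 1, 1], [0, 1, 2]), ([1, 2, 2, 0], [2, 3]),
   ([0, 2, 2, 1], [3, 2]), ([1, 1, 2, 1], [1, 2]), ([2, 2, 2, 0], [3]), ([1, 2, 2, 1], [2]),
   ([2, 2, 2, 1], [])]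

/-- the preferred prefix -/
def E2 : List (Fin 4) := [1, 2, 3, 0, 1, 2, 3]

lemma compl_Y : (ev [2])⁻¹ * Δ 5 = ev [0, 1, 0, 2, 1, 3, 2, 1, 0] := by
  have h : ev [2] * ev [0, 1, 0, 2, 1, 3, 2, 1, 0] = ev DW :=
    ev_eq_of_nfs (D := [4, 3, 2, 1]) (by decide +kernel) nfs_DW
  rw [Δ_DW, ← h, inv_mul_cancel_left]

lemma gcd_Y : IsGcd (ev [0, 1, 0, 2, 1, 0, 3, 2]) ((ev [2])⁻¹ * Δ 5) (ev E2) := by
  rw [compl_Y]
  refine gcd_of_chk (L := L1230123) (D := [2, 2, 2, 1]) ⟨_, List.mem_cons_self⟩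
    (by decide +kernel) (by decide +kernel) ?_ ?_
  · exact pre_of_nfs (S := [2, 2, 2, 1]) (t := [0]) (D := [2, 3, 2, 1]) (by decide +kernel)
      (by decide +kernel) (by decide +kernel)
  · exact pre_of_nfs (S := [2, 2, 2, 1]) (t := [1, 0]) (D := [4, 2, 2, 1]) (by decide +kernel)
      (by decide +kernel) (by decide +kernel)

lemma pref_Y : IsPreferredPrefix (ev (fY).flatten) (ev E2) :=
  pref_exists lnf_fY rfl rfl gcd_Y

lemma pref_Y_unique {d : Braid 5} (h : IsPreferredPrefix (ev (fY).flatten) d) : d = ev E2 :=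
  pref_unique (a := ev [0, 1, 0, 2, 1, 0, 3, 2]) (b := ev [2]) lnf_fY rfl rfl (ev_mem _)
    (by rw [compl_Y]; exact ev_mem _) gcd_Y (ev_mem _) h

end Pool.Agent.BraidOut
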