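import Pool.Agent.BraidOut.Braids

/-!
# Classification of the classes fixed by a power of the pure part

As in the file `BraidSliding.Classify`, with other exponents.
-/

set_option autoImplicit false

namespace Pool.Agent.BraidOut

open Pool.Agent.BraidSliding
open FreeGroup (of lift lift_apply_of)

/-- the automorphism of the pure part -/
def ψ : MulAut (FreeGroup (Fin 5)) := artin 5 y2

lemma ψ_eq : ψ = TD ^ 4 * T3 * τ ^ 7 := by
  unfold ψ y2 TD τ T0 T3
  simp only [map_mul, map_pow, map_inv]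

lemma τ7_cA_true : ∀ g ∈ Col cA true, (τ ^ 7) g ∈ Col cA true := fun g hg => τ_pow_cA 7 g hg

lemma τ7_cA_false : ∀ g ∈ Col cA false, (τ ^ 7) g = g := id_pow_on τ_cA_false 7

lemma ψ_true : ∀ g ∈ Col cA true, ψ g = δ ^ 4 * (τ ^ 7) g * (δ ^ 4)⁻¹ := by
  intro g hg
  rw [ψ_eq, MulAut.mul_apply, MulAut.mul_apply, T3_true _ (τ7_cA_true g hg),
    conj_pow_on δ_mem TD_true 4 _ (τ7_cA_true g hg)]

lemma ψ_false : ∀ g ∈ Col cA false, ψ g = ε * g * ε⁻¹ := by
  intro g hg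
  rw [ψ_eq, MulAut.mul_apply, MulAut.mul_apply, τ7_cA_false g hg, T3_false g hg]
  have h1 : ε * g * ε⁻¹ ∈ Col cA false := mul_mem (mul_mem ε_mem hg) (inv_mem ε_mem)
  rw [id_pow_on TD_false 4 _ h1]

lemma ψ_pow_false (n : ℕ) : ∀ g ∈ Col cA false, (ψ ^ n) g = ε ^ n * g * (ε ^ n)⁻¹ :=
  conj_pow_on ε_mem ψ_false n

lemma ψ_pow_true (n : ℕ) : ∀ g ∈ Col cA true,
    (ψ ^ n) g = (δ ^ 4) ^ n * (τ ^ (7 * n)) g * ((δ ^ 4) ^ n)⁻¹ := by
  induction n with
  | zero => intro g _; simp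
  | succ n ih =>
    intro g hg
    have h1 : (δ ^ 4) ^ n ∈ Col cA true := pow_mem (pow_mem δ_mem 4) n
    have h2 : (τ ^ (7 * (n + 1))) g = (τ ^ 7) ((τ ^ (7 * n)) g) := by
      rw [← MulAut.mul_apply, ← pow_add]
      congr 2
      ring
    rw [pow_succ', MulAut.mul_apply, ih g hg,
      ψ_true _ (mul_mem (mul_mem h1 (τ_pow_cA _ g hg)) (inv_mem h1)), map_mul, map_mul, map_inv,
      map_pow, map_pow, τ_pow_δ, h2, pow_succ' (δ ^ 4)]
    group

lemma ψ_cA_true : ∀ g ∈ Col cA true, ψ g ∈ Col cA true := by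
  intro g hg
  rw [ψ_true g hg]
  exact mul_mem (mul_mem (pow_mem δ_mem 4) (τ7_cA_true g hg)) (inv_mem (pow_mem δ_mem 4))

lemma ψ_cA_false : ∀ g ∈ Col cA false, ψ g ∈ Col cA false := by
  intro g hg
  rw [ψ_false g hg]
  exact mul_mem (mul_mem ε_mem hg) (inv_mem ε_mem)

lemma per_δ' {g : FreeGroup (Fin 5)} (hg : g ∈ Col cA true) {n : ℕ} (hn : 0 < n)
    (h : (ψ ^ n) g = g) : g ∈ Subgroup.zpowers δ := by
  rw [ψ_pow_true n g hg] at h
  generalize hM : 7 * n = M at h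
  have hf : ∀ z, κf (κg z) = z := fun z => DFunLike.congr_fun κfg z
  have hf' : ∀ z, κg (κf z) = z := fun z => DFunLike.congr_fun κgf z
  have e : κf δ = of 2 := by
    have := hf (of 2)
    rw [κg_of, if_pos rfl] at this
    exact this
  have e' : κg (of 2) = δ := by rw [κg_of, if_pos rfl]; rfl
  let Θ : FreeGroup (Fin 5) →* FreeGroup (Fin 5) := (κf.comp (τ ^ M).toMonoidHom).comp κg
  have hΘ : ∀ z, Θ z = κf ((τ ^ M) (κg z)) := fun z => rfl
  have h1 : κf g ∈ Subgroup.zpowers (of (2 : Fin 5)) := by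
    refine lemmaB (c := c2) (y := 2) (by decide) (by decide) Θ ?_ ?_ ?_
      (K := 4 * n) (by omega) ?_
    · intro z z' hz
      rw [hΘ, hΘ] at hz
      have h2 := congrArg κg hz
      rw [hf', hf'] at h2
      have h3 := (τ ^ M).injective h2
      have h4 := congrArg κf h3
      rwa [hf, hf] at h4
    · have : Col c2 true ≤ Subgroup.comap Θ (Col c2 true) := by
        refine col_induction fun i hi => ?_
        rw [Subgroup.mem_comap, hΘ]
        have hi2 : i ≠ 2 := by simpa [c2] using hi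
        rw [κg_of, if_neg hi2]
        by_cases hB : cB i = true
        · have h5 : (τ ^ M) (of i) ∈ Col cB true := by
            have h6 := conj_pow_on (inv_mem γ_mem) τ_true M (of i) (of_mem_col hB)
            rw [h6]
            have h7 : (γ⁻¹) ^ M ∈ Col cB true := pow_mem (inv_mem γ_mem) M
            exact mul_mem (mul_mem h7 (of_mem_col hB)) (inv_mem h7)
          rw [κf_fix _ (colB_le_c2 h5)]
          exact colB_le_c2 h5
        · rw [id_pow_on τ_false M (of i) (of_mem_col (by simpa using hB)), κf_of, if_neg hi2]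
          exact of_mem_col hi
      exact fun a ha => this ha
    · rw [hΘ, e', τ_pow_δ, e]
    · have h2 : (of (2 : Fin 5)) ^ (4 * (n : ℤ)) = κf ((δ ^ 4) ^ n) := by
        rw [map_pow, map_pow, e, zpow_mul, zpow_natCast]
        rfl
      rw [h2, hΘ, hf', ← map_mul, ← map_inv, ← map_mul, h]
  obtain ⟨m, hm⟩ := Subgroup.mem_zpowers_iff.mp h1
  refine Subgroup.mem_zpowers_iff.mpr ⟨m, ?_⟩
  rw [← hf' g, ← hm, map_zpow, e']

lemma per_ε' {g : FreeGroup (Fin 5)} (hg : g ∈ Col cA false) {n : ℕ} (hn : 0 < n)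
    (h : (ψ ^ n) g = g) : g ∈ Subgroup.zpowers ε := by
  rw [ψ_pow_false n g hg] at h
  refine centr (a := 3) (b := 4) (by decide) (k := n) (by omega) ?_
  have e : (of (3 : Fin 5) * of 4) ^ (n : ℤ) = ε ^ n := by
    rw [zpow_natCast]
    rfl
  rw [e, h]

/-- classification of the classes fixed by a power of `ψ` -/
theorem classify' {w : FreeGroup (Fin 5)} (hP : P w) (hM : Mid w) {N : ℕ} (hN : 0 < N)
    (hc : IsConj w ((ψ ^ N) w)) : IsConj w γ ∨ IsConj w δ ∨ IsConj w ε := by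
  obtain ⟨h, hh, hcase⟩ := exists_CF (c := cA) w
  have hPh : P h := P_conj hh.symm hP
  have hMh : Mid h := Mid_conj hh.symm hM
  have hch : IsConj h ((ψ ^ N) h) :=
    hh.symm.trans (hc.trans (MonoidHom.map_isConj (ψ ^ N).toMonoidHom hh))
  rcases hcase with h1 | h1 | ⟨l, hl, hne, rfl⟩
  · have h2 : IsConj h ((τ ^ (7 * N)) h) := by
      rw [ψ_pow_true N h h1] at hch
      exact hch.trans (isConj_iff.mpr ⟨((δ ^ 4) ^ N)⁻¹, by group⟩)
    rcases inner_level h1 hPh hMh (Nat.mul_pos (by norm_num) hN) h2 with h3 | h3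
    · exact Or.inl (hh.trans h3)
    · exact Or.inr (Or.inl (hh.trans h3))
  · exact Or.inr (Or.inr (hh.trans (two_letter (by decide) (colA_range h1) hPh hMh)))
  · exfalso
    have hT : ∀ a ∈ Col cA true, (ψ ^ N) a ∈ Col cA true := fun a ha =>
      pow_mem_col ψ_cA_true N ha
    have hF : ∀ a ∈ Col cA false, (ψ ^ N) a ∈ Col cA false := fun a ha =>
      pow_mem_col ψ_cA_false N ha
    have hper : ∀ p ∈ l, (∃ n : ℤ, n ≠ 0 ∧ p.1 = δ ^ n) ∧ (∃ m : ℤ, m ≠ 0 ∧ p.2 = ε ^ m) := by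
      intro p hp
      obtain ⟨⟨k, hk, e1⟩, k', hk', e2⟩ := blocks_periodic hT hF hl hch p hp
      obtain ⟨⟨g1, g2⟩, g3, g4⟩ := hl p hp
      rw [← pow_mul] at e1 e2
      obtain ⟨n, hn⟩ := Subgroup.mem_zpowers_iff.mp (per_δ' g1 (Nat.mul_pos hN hk) e1)
      obtain ⟨m, hm⟩ := Subgroup.mem_zpowers_iff.mp (per_ε' g3 (Nat.mul_pos hN hk') e2)
      refine ⟨⟨n, ?_, hn.symm⟩, m, ?_, hm.symm⟩
      · rintro rfl; exact g2 (by rw [← hn, zpow_zero])
      · rintro rfl; exact g4 (by rw [← hm, zpow_zero])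
    obtain ⟨p, rfl, k1, k2⟩ := mixed hne (a := 0) (b := 3) (by decide) hPh (by
      intro p hp
      obtain ⟨⟨n, hn, h1⟩, m, hm, h2⟩ := hper p hp
      rw [h1, h2, map_zpow, map_zpow, K_δ, K_ε]
      exact ⟨⟨n, hn, rfl⟩, m, hm, rfl⟩)
    obtain ⟨⟨n, hn, h1⟩, m, hm, h2⟩ := hper p (by simp)
    rw [h1, map_zpow, K_δ] at k1
    rw [h2, map_zpow, K_ε] at k2
    have hn1 : n = 1 := of_zpow_inj (k1.trans (zpow_one _).symm)
    have hm1 : m = 1 := of_zpow_inj (k2.trans (zpow_one _).symm)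
    refine not_Mid (n := 5) ?_ (by omega) hMh
    rw [evP_cons, evP_nil, mul_one, h1, h2, hn1, hm1, zpow_one, zpow_one]
    unfold δ ε
    simp only [map_mul, esum_of]
    rfl

end Pool.Agent.BraidOut
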