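import Pool.Agent.BraidOut.Curves

/-!
# The complexity of the two curves
-/

set_option autoImplicit false
set_option linter.unusedSimpArgs false

namespace Pool.Agent.BraidOut

open Pool.Agent.BraidSliding
open FreeGroup (of lift lift_apply_of)

/-- words of the two classes -/
def v1 : List (ℕ × Bool) :=
  [(2, false), (1, false), (0, false), (4, true), (0, true), (1, true), (2, true), (3, true)]

def v2 : List (ℕ × Bool) :=
  [(4, false), (3, false), (2, false), (1, false), (0, true), (1, true), (2, true), (3, true),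
    (4, true), (1, true)]

def chk' (e : List (ℕ × Q4)) : Bool := okw e v1 && okw e v2

def chkAll' : ℕ → List (List (ℕ × Q4)) → Bool
  | 0, L => L.all chk'
  | n + 1, L => L.all chk' && chkAll' n (nxt L)

theorem t10' : chkAll' 10 [M0] = true := by decide +kernel

lemma chkAll'_iter {n : ℕ} {L : List (List (ℕ × Q4))} (h : chkAll' n L = true) :
    ∀ m ≤ n, ∀ e ∈ nxt^[m] L, chk' e = true := by
  induction n generalizing L with
  | zero =>
    intro m hm e he
    have : m = 0 := by omega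
    subst this
    exact (List.all_eq_true.mp h) e he
  | succ n ih =>
    unfold chkAll' at h
    rw [Bool.and_eq_true] at h
    intro m hm e he
    cases m with
    | zero => exact (List.all_eq_true.mp h.1) e he
    | succ m =>
      rw [Function.iterate_succ_apply] at he
      exact ih h.2 m (by omega) e he

lemma chk'_simple {w : List (Fin 4)} (h : Pre (ev w) (Δ 5)) : chk' (st w) = true :=
  chkAll'_iter t10' _ (length_le_of_pre h) _ (st_mem w (wc_le_one_of_pre_Δ h))

lemma NR_of' {u : List (ℕ × Bool)} (h : ∀ e, chk' e = true → okw e u = true) :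
    NR (ConjClasses.mk (el u)) := by
  rintro a ⟨ha1, ha2⟩ ⟨i, j, hij, he⟩
  obtain ⟨w, rfl⟩ := exists_word ha1
  obtain ⟨r, hr, ht⟩ := round_trace hij
  rw [hr, act_mk, ConjClasses.mk_eq_mk_iff_isConj] at he
  have h1 := qt_isConj he
  rw [← vl_st] at h1
  have h2 := h _ (chk'_simple ha2)
  unfold okw at h2
  rw [h1] at h2
  simp only [Bool.not_eq_true', List.contains_eq_mem, decide_eq_false_iff_not] at h2
  exact h2 ht

/-! ### The two classes -/

lemma T_apply (g : FreeGroup (Fin 5)) : artin 5 T g = artin 5 (s 2) (artin 5 (s 1)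
    (artin 5 (s 0) (artin 5 (s 0) (artin 5 (s 1) (artin 5 (s 2) g))))) := by
  unfold T twl
  simp only [ev_cons, ev_nil, mul_one, map_mul, MulAut.mul_apply]

lemma C0_eq' : C0 = ConjClasses.mk (el v1) := by
  unfold C0
  rw [round34, act_mk, map_inv, inv_inv, T_apply, ConjClasses.mk_eq_mk_iff_isConj]
  refine isConj_iff.mpr ⟨(of 0 * of 1 * of 2 * of 3)⁻¹, ?_⟩
  unfold ε v1
  simp [el, lt, a00, a01, a02, a03, a04, a10, a11, a12, a13, a14, a20, a21, a22, a23, a24,
    mul_assoc]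

lemma C1_eq' : C1 = ConjClasses.mk (el v2) := by
  rw [← C0_act_Δ, C0_eq']
  refine act_mk_eq (isConj_iff.mpr ⟨(of 0 * of 1 * of 2)⁻¹, ?_⟩)
  unfold v1 v2
  simp [el, lt, Δ0, Δ1, Δ2, Δ3, Δ4, mul_assoc]

lemma chk'_split {e : List (ℕ × Q4)} (h : chk' e = true) :
    okw e v1 = true ∧ okw e v2 = true := by
  unfold chk' at h
  rwa [Bool.and_eq_true] at h

lemma NR_C0 : NR C0 := by rw [C0_eq']; exact NR_of' fun e h => (chk'_split h).1
lemma NR_C1 : NR C1 := by rw [C1_eq']; exact NR_of' fun e h => (chk'_split h).2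

lemma complexity_eq_two' {C : Loop 5} (h1 : NR C) (h2 : NR (act C (Δ 5))) {α : Braid 5}
    (ha : α ∈ Pos 5) (hl : HasCanonicalLength α 2) (hr : IsRound (act C α)) :
    complexity C = 2 := by
  unfold complexity
  refine le_antisymm ?_ ?_
  · exact Nat.sInf_le ⟨α, ha, hl, hr⟩
  · refine le_csInf ⟨2, α, ha, hl, hr⟩ ?_
    rintro r ⟨β, -, hβ, hr'⟩
    exact not_round_of_le_one h1 h2 hβ hr'

lemma length_T : HasCanonicalLength T 2 := ⟨0, evl ftw, lnf_ftw, rfl⟩
lemma length_T2 : HasCanonicalLength T2 2 := ⟨0, evl ftw2, lnf_ftw2, rfl⟩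

lemma e1_apply (g : FreeGroup (Fin 5)) : artin 5 e1 g = artin 5 (s 2) (artin 5 (s 1)
    (artin 5 (s 0) (artin 5 (s 3) (artin 5 (s 2) (artin 5 (s 1) (artin 5 (s 0) g)))))) := by
  unfold e1 E1
  simp only [ev_cons, ev_nil, mul_one, map_mul, MulAut.mul_apply]

lemma round_e1 : act (roundCurve 5 3 4) e1 = roundCurve 5 0 1 := by
  rw [round34, round01]
  refine act_mk_eq (isConj_iff.mpr ⟨(of 0 * of 1 * of 2)⁻¹, ?_⟩)
  rw [e1_apply]
  unfold ε γ
  simp [a00, a01, a02, a03, a04, a10, a11, a12, a13, a14, a20, a21, a22, a23, a24, a30, a31,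
    a32, a33, a34, mul_assoc]

lemma C1_act_T2 : act C1 T2 = roundCurve 5 0 1 := by
  unfold C1 C0
  have h : T⁻¹ * (e1 * T2) = e1 := by
    rw [semi1.eq, inv_mul_cancel_left]
  rw [act_mul, act_mul, h, round_e1]

theorem complexity_C0' : complexity C0 = 2 := by
  refine complexity_eq_two' NR_C0 (by rw [C0_act_Δ]; exact NR_C1) (ev_mem twl) length_T ?_
  exact ⟨3, 4, ⟨by omega, by omega, by omega⟩, C0_act_T⟩

theorem complexity_C1' : complexity C1 = 2 := by
  refine complexity_eq_two' NR_C1 (by rw [C1_act_Δ]; exact NR_C0) (ev_mem tw2l) length_T2 ?_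
  exact ⟨0, 1, ⟨by omega, by omega, by omega⟩, C1_act_T2⟩

/-! ### The sliding orbit has the period two -/

lemma orbit_step {xs : ℕ → Braid 5} {Cs : ℕ → Loop 5} (h : IsSlidingOrbit bX C0 xs Cs)
    (k : ℕ) : (xs k = bX ∧ Cs k = C0 → xs (k + 1) = bY ∧ Cs (k + 1) = C1) ∧
      (xs k = bY ∧ Cs k = C1 → xs (k + 1) = bX ∧ Cs (k + 1) = C0) := by
  obtain ⟨d, hd, h3, h4⟩ := h.2.2 k
  constructor
  · rintro ⟨i1, i2⟩
    rw [i1] at hd h3
    have hd' : d = e1 := pref_X_unique hd
    subst hd'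
    rw [h3, h4, i2, conj_bX]
    exact ⟨rfl, rfl⟩
  · rintro ⟨i1, i2⟩
    rw [i1] at hd h3
    have hd' : d = e2 := pref_Y_unique hd
    subst hd'
    rw [h3, h4, i2, conj_bY, C1_act_e2]
    exact ⟨rfl, rfl⟩

/-- the whole statement -/
theorem main' : ∃ (x : Braid 5) (C : Loop 5), IsReducible x ∧ IsEssential x C ∧
    IsOutermost x C ∧ complexity C = 2 ∧ (∃ xs Cs, IsSlidingOrbit x C xs Cs) ∧
    ∀ xs Cs, IsSlidingOrbit x C xs Cs → ∀ k : ℕ, complexity (Cs k) = 2 ∧
      xs (k + 2) = xs k ∧ Cs (k + 2) = Cs k := by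
  refine ⟨bX, C0, ⟨not_periodic', C0, reduction_C0'⟩, essential_C0', outermost_C0,
    complexity_C0', orbit_exists', fun xs Cs h k => ?_⟩
  rcases orbit_alternates' h k with h0 | h0
  · obtain ⟨h1, h2⟩ := (orbit_step h k).1 h0
    obtain ⟨h3, h4⟩ := (orbit_step h (k + 1)).2 ⟨h1, h2⟩
    refine ⟨by rw [h0.2]; exact complexity_C0', ?_, ?_⟩
    · rw [h0.1]; exact h3
    · rw [h0.2]; exact h4
  · obtain ⟨h1, h2⟩ := (orbit_step h k).2 h0
    obtain ⟨h3, h4⟩ := (orbit_step h (k + 1)).1 ⟨h1, h2⟩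
    refine ⟨by rw [h0.2]; exact complexity_C1', ?_, ?_⟩
    · rw [h0.1]; exact h3
    · rw [h0.2]; exact h4

end Pool.Agent.BraidOut
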