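import Pool.Agent.BraidOut.Classify

/-!
# The reduction curves of the braid `bX`
-/

set_option autoImplicit false
set_option linter.unusedSimpArgs false

namespace Pool.Agent.BraidOut

open Pool.Agent.BraidSliding
open FreeGroup (of lift lift_apply_of)

/-! ### Definitions of the statement -/

/-- `D` encloses `C`: some braid makes both round, and the round curve `D` encloses the round
curve `C` (or is equal to it). -/
def Encloses {n : ℕ} (D C : Loop n) : Prop :=
  ∃ (β : Braid n) (i j k l : ℕ), IsInterval n i j ∧ IsInterval n k l ∧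
    act C β = roundCurve n i j ∧ act D β = roundCurve n k l ∧ k ≤ i ∧ j ≤ l

/-- `C` is an outermost reduction curve of `x`: no other reduction curve of `x` encloses it. -/
def IsOutermost {n : ℕ} (x : Braid n) (C : Loop n) : Prop :=
  IsReductionCurve x C ∧ ∀ D : Loop n, IsReductionCurve x D → Encloses D C → D = C

/-! ### The curve -/

/-- the reduction curve of the example -/
def C0 : Loop 5 := act (roundCurve 5 3 4) T⁻¹

/-- the curve after one cyclic sliding -/
def C1 : Loop 5 := act C0 e1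

lemma C0_act_T : act C0 T = roundCurve 5 3 4 := by
  unfold C0
  rw [act_mul, inv_mul_cancel, act_one]

lemma s0_ε : artin 5 (s 0) ε = ε := by unfold ε; simp [a03, a04]
lemma s1_ε : artin 5 (s 1) ε = ε := by unfold ε; simp [a13, a14]
lemma s3_ε : artin 5 (s 3) ε = ε := by unfold ε; simp [a33, a34]

lemma round_s0 : s 0 ∈ Stab (roundCurve 5 3 4) := by
  change act _ _ = _
  rw [round34]
  exact act_mk_eq (by rw [s0_ε])

lemma round_s1 : s 1 ∈ Stab (roundCurve 5 3 4) := by
  change act _ _ = _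
  rw [round34]
  exact act_mk_eq (by rw [s1_ε])

lemma round_s3 : s 3 ∈ Stab (roundCurve 5 3 4) := by
  change act _ _ = _
  rw [round34]
  exact act_mk_eq (by rw [s3_ε])

lemma round_D3 : D3 ∈ Stab (roundCurve 5 3 4) := by
  unfold D3
  simp only [ev_cons, ev_nil, mul_one]
  exact mul_mem round_s0 (mul_mem round_s1 round_s0)

lemma Δ_sq_stab (C : Loop 5) : Δ 5 ^ 2 ∈ Stab C := act_Δ_sq C

lemma Z_stab : Z ∈ Stab (roundCurve 5 3 4) := by
  rw [Z_eq]
  exact mul_mem (Δ_sq_stab _) (inv_mem (pow_mem round_D3 2))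

lemma x1_stab : x1 ∈ Stab (roundCurve 5 3 4) := by
  unfold x1
  exact mul_mem (pow_mem Z_stab 2) (mul_mem (inv_mem round_s3) (pow_mem round_s0 7))

lemma C0_act_bX : act C0 bX = C0 := by
  have h : act (act C0 bX) T = act C0 T := by
    rw [act_mul, bX_conj, ← act_mul, C0_act_T]
    exact x1_stab
  exact act_inj h

lemma C0_act_D3 : act C0 D3 = C0 := by
  have h : act (act C0 D3) T = act C0 T := by
    rw [act_mul, D3_T.eq, ← act_mul, C0_act_T]
    exact round_D3
  exact act_inj h

lemma C0_act_Δ : act C0 (Δ 5) = C1 := by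
  unfold C1
  rw [← D3_e1, ← act_mul, C0_act_D3]

lemma C1_act_Δ : act C1 (Δ 5) = C0 := by
  rw [← C0_act_Δ, act_mul, ← pow_two, act_Δ_sq]

lemma C1_act_e2 : act C1 e2 = C0 := by
  have h : act (act C1 e2) D3 = C0 := by
    rw [act_mul, e2_D3, C1_act_Δ]
  have h2 : act (act C1 e2) D3 = act C0 D3 := by rw [h, C0_act_D3]
  exact act_inj h2

/-! ### The sliding orbit -/

/-- Every sliding orbit of the example alternates between two pairs. -/
lemma orbit_alternates' {xs : ℕ → Braid 5} {Cs : ℕ → Loop 5}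
    (h : IsSlidingOrbit bX C0 xs Cs) (k : ℕ) :
    (xs k = bX ∧ Cs k = C0) ∨ (xs k = bY ∧ Cs k = C1) := by
  obtain ⟨h0, h1, h2⟩ := h
  induction k with
  | zero => exact Or.inl ⟨h0, h1⟩
  | succ k ih =>
    obtain ⟨d, hd, h3, h4⟩ := h2 k
    rcases ih with ⟨i1, i2⟩ | ⟨i1, i2⟩
    · right
      rw [i1] at hd h3
      have hd' : d = e1 := pref_X_unique hd
      subst hd'
      rw [h3, h4, i2, conj_bX]
      exact ⟨rfl, rfl⟩
    · left
      rw [i1] at hd h3
      have hd' : d = e2 := pref_Y_unique hd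
      subst hd'
      rw [h3, h4, i2, conj_bY, C1_act_e2]
      exact ⟨rfl, rfl⟩

lemma orbit_exists' : ∃ xs Cs, IsSlidingOrbit bX C0 xs Cs := by
  refine ⟨fun k => if Even k then bX else bY, fun k => if Even k then C0 else C1,
    by simp, by simp, fun k => ?_⟩
  by_cases hk : Even k
  · have hk' : ¬ Even (k + 1) := by rw [Nat.even_add_one]; exact fun h => h hk
    dsimp only
    rw [if_pos hk, if_pos hk, if_neg hk', if_neg hk']
    exact ⟨e1, pref_X, conj_bX.symm, rfl⟩
  · have hk' : Even (k + 1) := by rw [Nat.even_add_one]; exact hk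
    dsimp only
    rw [if_neg hk, if_neg hk, if_pos hk', if_pos hk']
    exact ⟨e2, pref_Y, conj_bY.symm, C1_act_e2.symm⟩

/-! ### Reduction curves -/

lemma reduction_C0' : IsReductionCurve bX C0 := by
  have I : IsInterval 5 3 4 := ⟨by omega, by omega, by omega⟩
  refine ⟨{C0}, Set.finite_singleton _, ?_, ?_, ?_, rfl⟩
  · rintro D rfl
    exact ⟨T, 3, 4, I, C0_act_T⟩
  · rintro D rfl E rfl
    exact ⟨T, 3, 4, 3, 4, I, I, C0_act_T, C0_act_T, by omega⟩
  · rw [Set.image_singleton, C0_act_bX]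

/-- a class fixed by a power of the pure part -/
lemma class_cases {D : Loop 5} (hD : IsCurve D) {N : ℕ} (hN : 0 < N)
    (h : act D (y2 ^ N) = D) : D = roundCurve 5 0 1 ∨ D = roundCurve 5 0 2 ∨
      D = roundCurve 5 3 4 := by
  obtain ⟨w, rfl⟩ := ConjClasses.mk_surjective D
  obtain ⟨hP, hM⟩ := curve_P hD rfl
  rw [act_mk, ConjClasses.mk_eq_mk_iff_isConj, map_pow] at h
  have hc : IsConj w ((ψ ^ N) w) := by
    have := MonoidHom.map_isConj (ψ ^ N).toMonoidHom h
    have e : (ψ ^ N).toMonoidHom ((artin 5 y2 ^ N)⁻¹ w) = w := MulAut.apply_inv_self _ _ _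
    rw [e] at this
    exact this
  rw [round01, round02, round34]
  simp only [ConjClasses.mk_eq_mk_iff_isConj]
  exact classify' hP hM hN hc

lemma fixed_y2 {D : Loop 5} {N : ℕ} (h : act D ((x1 ^ 2) ^ N) = D) : act D (y2 ^ N) = D := by
  have h1 : act (act D ((x1 ^ 2) ^ N)) (y2 ^ N) = D := by
    rw [act_mul, x1_y2_pow]
    exact pow_mem (pow_mem (Δ_sq_stab D) 4) N
  rwa [h] at h1

/-- the reduction curves of `bX`, moved by `T` -/
lemma reduction_cases {D : Loop 5} (hD : IsReductionCurve bX D) :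
    act D T = roundCurve 5 0 1 ∨ act D T = roundCurve 5 0 2 ∨ act D T = roundCurve 5 3 4 := by
  obtain ⟨N, hN, hfix⟩ := exists_power hD
  have hcurve : IsCurve D := by
    obtain ⟨S, -, hS, -, -, hmem⟩ := hD
    exact hS D hmem
  have hcurve' : IsCurve (act D T) := by
    obtain ⟨β, hβ⟩ := hcurve
    refine ⟨T⁻¹ * β, ?_⟩
    rw [act_mul, mul_inv_cancel_left]
    exact hβ
  have hfix1 : act (act D T) (x1 ^ N) = act D T := by
    rw [act_mul, ← bX_pow_conj, ← act_mul, hfix]
  have hfix2 : act (act D T) ((x1 ^ 2) ^ N) = act D T := by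
    rw [← pow_mul, mul_comm, pow_mul, pow_two (x1 ^ N), ← act_mul, hfix1, hfix1]
  exact class_cases hcurve' hN (fixed_y2 hfix2)

lemma essential_C0' : IsEssential bX C0 := by
  refine ⟨reduction_C0', fun D hD => ?_⟩
  have I : IsInterval 5 3 4 := ⟨by omega, by omega, by omega⟩
  rcases reduction_cases hD with h | h | h
  · exact ⟨T, 3, 4, 0, 1, I, ⟨by omega, by omega, by omega⟩, C0_act_T, h, by omega⟩
  · exact ⟨T, 3, 4, 0, 2, I, ⟨by omega, by omega, by omega⟩, C0_act_T, h, by omega⟩
  · exact ⟨T, 3, 4, 3, 4, I, I, C0_act_T, h, by omega⟩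

/-! ### Exponents of the letters -/

/-- the exponent of the letter `p` -/
def lex (p : Fin 5) : FreeGroup (Fin 5) →* Multiplicative ℤ :=
  lift fun i => if i = p then Multiplicative.ofAdd 1 else 1

lemma lex_of (p i : Fin 5) : lex p (of i) = if i = p then Multiplicative.ofAdd 1 else 1 :=
  lift_apply_of

lemma lex_conj (p : Fin 5) {g h : FreeGroup (Fin 5)} (hc : IsConj g h) : lex p g = lex p h := by
  obtain ⟨x, rfl⟩ := isConj_iff.mp hc
  rw [map_mul, map_mul, map_inv, mul_comm, inv_mul_cancel_left]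

/-- all exponents of `g` are at most those of `h` -/
def Le (g h : FreeGroup (Fin 5)) : Prop := ∀ p : Fin 5, lex p g ≤ lex p h

lemma lex_s (k : Fin 4) (p : Fin 5) (g : FreeGroup (Fin 5)) :
    lex p (artin 5 (s k) g) = lex (sw k p) g := by
  have key : ∀ k : Fin 4, ∀ p i : Fin 5, lex p (artinFun (n := 5) k i) = lex (sw k p) (of i) := by
    intro k p i
    unfold artinFun
    have e1 : ∀ k : Fin 4, lo (n := 5) k ≠ hi (n := 5) k := fun k => lo_ne_hi (n := 5) k
    split_ifs with h1 h2
    · rw [map_mul, map_mul, map_inv, mul_comm, inv_mul_cancel_left, lex_of, lex_of, h1]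
      have : ∀ k : Fin 4, ∀ p : Fin 5, (hi (n := 5) k = p) ↔ (lo (n := 5) k = sw k p) := by
        decide
      simp only [this]
    · rw [lex_of, lex_of, h2]
      have : ∀ k : Fin 4, ∀ p : Fin 5, (lo (n := 5) k = p) ↔ (hi (n := 5) k = sw k p) := by
        decide
      simp only [this]
    · rw [lex_of, lex_of]
      have : ∀ k : Fin 4, ∀ i p : Fin 5, i ≠ lo (n := 5) k → i ≠ hi (n := 5) k →
          ((i = p) ↔ (i = sw k p)) := by
        decide
      simp only [this k i p h1 h2]
  have : (lex p).comp (artin 5 (s k)).toMonoidHom = lex (sw k p) := by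
    ext i
    have h1 := key k p i
    rw [← artin_s_of] at h1
    exact congrArg _ h1
  exact DFunLike.congr_fun this g

lemma Le_s (k : Fin 4) (g h : FreeGroup (Fin 5)) :
    Le (artin 5 (s k) g) (artin 5 (s k) h) ↔ Le g h := by
  constructor
  · intro h1 p
    have h2 := h1 (sw k p)
    rwa [lex_s, lex_s, sw_sw] at h2
  · intro h1 p
    rw [lex_s, lex_s]
    exact h1 _

lemma Le_braid (β : Braid 5) (g h : FreeGroup (Fin 5)) :
    Le (artin 5 β g) (artin 5 β h) ↔ Le g h := by
  let S : Subgroup (Braid 5) :=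
    { carrier := {β | ∀ g h, Le (artin 5 β g) (artin 5 β h) ↔ Le g h}
      one_mem' := by intro g h; rw [map_one, MulAut.one_apply, MulAut.one_apply]
      mul_mem' := by
        intro x y hx hy g h
        rw [map_mul, MulAut.mul_apply, MulAut.mul_apply, hx, hy]
      inv_mem' := by
        intro x hx g h
        have h1 := hx ((artin 5 x)⁻¹ g) ((artin 5 x)⁻¹ h)
        rw [MulAut.apply_inv_self, MulAut.apply_inv_self] at h1
        rw [map_inv]
        exact h1.symm }
  exact braid_induction (S := S) (fun k g h => Le_s k g h) β g h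

/-- the order of the classes -/
def CLe (C D : Loop 5) : Prop :=
  ∀ g h : FreeGroup (Fin 5), C = ConjClasses.mk g → D = ConjClasses.mk h → Le g h

lemma CLe_mk (g h : FreeGroup (Fin 5)) :
    CLe (ConjClasses.mk g) (ConjClasses.mk h) ↔ Le g h := by
  constructor
  · intro h1
    exact h1 g h rfl rfl
  · intro h1 g' h' hg hh p
    rw [ConjClasses.mk_eq_mk_iff_isConj] at hg hh
    rw [← lex_conj p hg, ← lex_conj p hh]
    exact h1 p

lemma CLe_act (C D : Loop 5) (β : Braid 5) : CLe (act C β) (act D β) ↔ CLe C D := by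
  obtain ⟨g, rfl⟩ := ConjClasses.mk_surjective C
  obtain ⟨h, rfl⟩ := ConjClasses.mk_surjective D
  rw [act_mk, act_mk, CLe_mk, CLe_mk, ← map_inv]
  exact Le_braid _ _ _

lemma CLe_round {i j k l : ℕ} (hij : IsInterval 5 i j) (hkl : IsInterval 5 k l) (h1 : k ≤ i)
    (h2 : j ≤ l) : CLe (roundCurve 5 i j) (roundCurve 5 k l) := by
  obtain ⟨a1, a2, a3⟩ := hij
  obtain ⟨b1, b2, b3⟩ := hkl
  unfold roundCurve
  rw [CLe_mk]
  have key : ∀ l j i k : Fin 5, k ≤ i → i < j → j ≤ l → ∀ p : Fin 5,
      lex p (((List.finRange 5).filter fun q => i.val ≤ q.val ∧ q.val ≤ j.val).map of).prod ≤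
      lex p (((List.finRange 5).filter fun q => k.val ≤ q.val ∧ q.val ≤ l.val).map of).prod := by
    decide +kernel
  exact key ⟨l, b2⟩ ⟨j, a2⟩ ⟨i, by omega⟩ ⟨k, by omega⟩ (Fin.mk_le_mk.mpr h1)
    (Fin.mk_lt_mk.mpr a1) (Fin.mk_le_mk.mpr h2)

lemma encloses_CLe {C D : Loop 5} (h : Encloses D C) : CLe C D := by
  obtain ⟨β, i, j, k, l, I, I', h1, h2, h3, h4⟩ := h
  rw [← CLe_act C D β, h1, h2]
  exact CLe_round I I' h3 h4

lemma lex3_ε : lex 3 ε = Multiplicative.ofAdd 1 := by
  unfold ε
  rw [map_mul, lex_of, lex_of, if_pos rfl, if_neg (by decide), mul_one]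

lemma lex3_γ : lex 3 γ = 1 := by
  unfold γ
  rw [map_mul, lex_of, lex_of, if_neg (by decide), if_neg (by decide), mul_one]

lemma lex3_δ : lex 3 δ = 1 := by
  unfold δ
  rw [map_mul, map_mul, lex_of, lex_of, lex_of, if_neg (by decide), if_neg (by decide),
    if_neg (by decide), mul_one, mul_one]

lemma not_one_le : ¬ (Multiplicative.ofAdd (1 : ℤ) ≤ 1) := by decide

lemma outermost_C0 : IsOutermost bX C0 := by
  refine ⟨reduction_C0', fun D hD hE => ?_⟩
  have h1 := encloses_CLe hE
  rw [← CLe_act _ _ T, C0_act_T, round34] at h1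
  rcases reduction_cases hD with h | h | h
  · exfalso
    rw [h, round01, CLe_mk] at h1
    have h2 := h1 3
    rw [lex3_ε, lex3_γ] at h2
    exact not_one_le h2
  · exfalso
    rw [h, round02, CLe_mk] at h1
    have h2 := h1 3
    rw [lex3_ε, lex3_δ] at h2
    exact not_one_le h2
  · exact act_inj (h.trans C0_act_T.symm)

/-! ### Not periodic -/

lemma not_periodic' : ¬ IsPeriodic bX := by
  rintro ⟨k, hk, m, hm⟩
  have I : IsInterval 5 1 2 := ⟨by omega, by omega, by omega⟩
  have I0 : IsCurve (roundCurve 5 1 2) := ⟨1, 1, 2, I, act_one _⟩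
  -- a power of `bX` acts trivially
  have h1 : ∀ C : Loop 5, act C (bX ^ (k * 2)) = C := by
    intro C
    rw [pow_mul, hm, ← zpow_natCast, ← zpow_mul, mul_comm, zpow_mul]
    exact zpow_mem (show Δ 5 ^ ((2 : ℕ) : ℤ) ∈ Stab C by
      rw [zpow_natCast]; exact Δ_sq_stab C) m
  have h2 : act (roundCurve 5 1 2) ((x1 ^ 2) ^ k) = roundCurve 5 1 2 := by
    have h3 : act (act (roundCurve 5 1 2) T⁻¹) (bX ^ (k * 2) * T) = roundCurve 5 1 2 := by
      rw [← act_mul, h1, act_mul, inv_mul_cancel, act_one]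
    rw [bX_pow_conj, act_mul, inv_mul_cancel_left, mul_comm k 2, pow_mul] at h3
    exact h3
  have h3 := class_cases I0 hk (fixed_y2 h2)
  rw [round12, round01, round02, round34] at h3
  simp only [ConjClasses.mk_eq_mk_iff_isConj] at h3
  rcases h3 with h3 | h3 | h3
  · have h4 := lex_conj 2 h3
    revert h4
    unfold γ
    decide +kernel
  · have h4 := lex_conj 0 h3
    revert h4
    unfold δ
    decide +kernel
  · have h4 := lex_conj 3 h3
    revert h4
    unfold ε
    decide +kernel

end Pool.Agent.BraidOut
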