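import Pool.Agent.BraidSliding.Final

/-!
# Greatest common prefixes by a finite check

Positive words are processed from the left. The simple braids on five strands are written in a
canonical form by the lengths of four descending runs.
-/

set_option autoImplicit false

namespace Pool.Agent.BraidOut

open Pool.Agent.BraidSliding

/-! ### crossing numbers with the initial labels -/

/-- the position after the letter `a` of the strand at the position `x` -/
def sp (a x : ℕ) : ℕ := if x = a then a + 1 else if x = a + 1 then a else x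

/-- does the letter `a` cross the strands at `x` and `y`? -/
def ht (a x y : ℕ) : ℕ := if (x = a ∧ y = a + 1) ∨ (x = a + 1 ∧ y = a) then 1 else 0

/-- number of crossings in the word of the strands which start at `x` and `y` -/
def cf : List (Fin 4) → ℕ → ℕ → ℕ
  | [], _, _ => 0
  | a :: w, x, y => ht a.val x y + cf w (sp a.val x) (sp a.val y)

/-- the final position of the strand which starts at `x` -/
def ff : List (Fin 4) → ℕ → ℕ
  | [], x => x
  | a :: w, x => ff w (sp a.val x)

lemma sp_perm (a : Fin 4) (x : Fin 5) : sp a.val ((CG.g a).perm x).val = x.val := by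
  revert a x; decide

lemma ht_perm (a : Fin 4) (x y : Fin 5) :
    (ht a.val ((CG.g a).perm x).val ((CG.g a).perm y).val : ℤ) = (CG.g a).cnt x y := by
  revert a x y; decide

lemma cf_wc (w : List (Fin 4)) (i j : Fin 5) :
    (cf w (wp w i).val (wp w j).val : ℤ) = wc w i j := by
  induction w with
  | nil => rw [wc_nil]; rfl
  | cons a w ih =>
    rw [wc_cons, wp_cons, wp_cons]
    unfold cf
    push_cast
    rw [sp_perm, sp_perm, ht_perm, ih]
    ring

lemma ff_wp (w : List (Fin 4)) (i : Fin 5) : ff w (wp w i).val = i.val := by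
  induction w with
  | nil => rw [wp_nil]; rfl
  | cons a w ih =>
    rw [wp_cons]
    unfold ff
    rw [sp_perm, ih]

/-- matrix of the crossing numbers -/
def mat (w : List (Fin 4)) : List ℕ :=
  (List.range 25).map fun n => cf w (n / 5) (n % 5)

/-- list of the final positions -/
def fin (w : List (Fin 4)) : List ℕ := (List.range 5).map fun n => ff w n

/-- entry of a list -/
def nth : List ℕ → ℕ → ℕ
  | [], _ => 0
  | a :: _, 0 => a
  | _ :: l, n + 1 => nth l n

lemma nth_map_range (f : ℕ → ℕ) (m : ℕ) :
    ∀ (l n : ℕ), nth ((List.range' l m).map f) n = if n < m then f (l + n) else 0 := by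
  induction m with
  | zero => intro l n; simp [nth]
  | succ m ih =>
    intro l n
    rw [List.range'_succ, List.map_cons]
    cases n with
    | zero => simp [nth]
    | succ n =>
      rw [nth, ih]
      by_cases h : n < m
      · rw [if_pos h, if_pos (by omega)]
        congr 1
        omega
      · rw [if_neg h, if_neg (by omega)]

lemma nth_mat (w : List (Fin 4)) {x y : ℕ} (hx : x < 5) (hy : y < 5) :
    nth (mat w) (5 * x + y) = cf w x y := by
  unfold mat
  rw [List.range_eq_range', nth_map_range, if_pos (by omega)]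
  congr 1
  · omega
  · omega

lemma nth_fin (w : List (Fin 4)) {x : ℕ} (hx : x < 5) : nth (fin w) x = ff w x := by
  unfold fin
  rw [List.range_eq_range', nth_map_range, if_pos hx]
  congr 1
  omega

/-- two strands cross more often in `c` -/
def bad2 (c : List (Fin 4)) (M : List ℕ) (A B : ℕ) : Bool :=
  decide (nth M (5 * A + B) < cf c A B)

/-- the strand `B` between `A` and `D` shows that `c` is not a prefix -/
def bad3 (c : List (Fin 4)) (M F : List ℕ) (A B D : ℕ) : Bool :=
  decide (nth F A < nth F B) && decide (nth F B < nth F D) &&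
    decide (nth M (5 * A + B) = cf c A B) && decide (nth M (5 * B + D) = cf c B D) &&
      !(decide (nth M (5 * A + D) = cf c A D))

/-- `c` is not a prefix of a word with the matrix `M` and the final positions `F` -/
def bad (c : List (Fin 4)) (M F : List ℕ) : Bool :=
  ((List.range 5).any fun A => (List.range A).any fun B => bad2 c M A B) ||
    ((List.range 5).any fun A => (List.range 5).any fun B => (List.range 5).any fun D =>
      bad3 c M F A B D)

lemma exists_label (w : List (Fin 4)) {A : ℕ} (hA : A < 5) :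
    ∃ i : Fin 5, (wp w i).val = A := ⟨(wp w).symm ⟨A, hA⟩, by rw [Equiv.apply_symm_apply]⟩

lemma not_pre_bad {c W : List (Fin 4)} (h : bad c (mat W) (fin W) = true) :
    ¬ Pre (ev c) (ev W) := by
  intro hp
  obtain ⟨v, hv⟩ := pre_iff.mp hp
  rw [← ev_append] at hv
  -- numbers of `v`
  have key : ∀ A < 5, ∀ B < 5, ∃ x y : Fin 5, ff W A = x.val ∧ ff W B = y.val ∧
      (cf W A B : ℤ) = wc v x y + cf c A B := by
    intro A hA B hB
    obtain ⟨x, hx⟩ := exists_label W hA
    obtain ⟨y, hy⟩ := exists_label W hB
    refine ⟨x, y, by rw [← hx, ff_wp], by rw [← hy, ff_wp], ?_⟩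
    have e1 : ∀ z : Fin 5, wp W z = wp c (wp v z) := by
      intro z
      have h1 : wp W z = wp (c ++ v) z := by unfold wp; rw [hv]
      rw [h1]
      unfold wp
      rw [ev_append, map_mul, CG.mul_perm, Equiv.Perm.mul_apply]
    have e2 : wc W x y = wc (c ++ v) x y := by unfold wc; rw [hv]
    rw [← hx, ← hy, cf_wc, e2, wc_split, e1, e1, cf_wc]
  unfold bad at h
  rw [Bool.or_eq_true] at h
  rcases h with h | h
  · obtain ⟨A, hA, h⟩ := List.any_eq_true.mp h
    obtain ⟨B, hB, h⟩ := List.any_eq_true.mp h
    rw [List.mem_range] at hA hB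
    have hB' : B < 5 := by omega
    have h1 := of_decide_eq_true h
    rw [nth_mat W hA hB'] at h1
    obtain ⟨x, y, -, -, h2⟩ := key A hA B hB'
    have h3 := wc_nonneg v x y
    omega
  · obtain ⟨A, hA, h⟩ := List.any_eq_true.mp h
    obtain ⟨B, hB, h⟩ := List.any_eq_true.mp h
    obtain ⟨D, hD, h⟩ := List.any_eq_true.mp h
    rw [List.mem_range] at hA hB hD
    unfold bad3 at h
    rw [nth_mat W hA hB, nth_mat W hB hD, nth_mat W hA hD, nth_fin W hA, nth_fin W hB,
      nth_fin W hD] at h
    simp only [Bool.and_eq_true, decide_eq_true_eq, Bool.not_eq_true', decide_eq_false_iff_not]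
      at h
    obtain ⟨⟨⟨⟨h1, h2⟩, h3⟩, h4⟩, h5⟩ := h
    obtain ⟨x, y, ex, ey, e1⟩ := key A hA B hB
    obtain ⟨y', z, ey', ez, e2⟩ := key B hB D hD
    obtain ⟨x', z', ex', ez', e3⟩ := key A hA D hD
    have hy : y' = y := Fin.ext (by omega)
    have hx : x' = x := Fin.ext (by omega)
    have hz : z' = z := Fin.ext (by omega)
    subst hy hx hz
    have t1 := (triple v x' y' z' (Fin.lt_def.mpr (by omega)) (Fin.lt_def.mpr (by omega))
      (by omega) (by omega)).1
    apply h5
    omega

/-! ### canonical words -/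

/-- a descending run `j - 1, …, j - m` -/
def run (j m : ℕ) : List (Fin 4) := (List.range m).map fun i => Fin.ofNat 4 (j - 1 - i)

/-- the word of a list of lengths `[m_j, …, m_1]` -/
def wd : ℕ → List ℕ → List (Fin 4)
  | j + 1, m :: S => wd j S ++ run (j + 1) m
  | _, _ => []

/-- right multiplication by the letter `k` -/
def push : ℕ → List ℕ → ℕ → Option (List ℕ)
  | j + 1, m :: S, k =>
    if k + 1 = j + 1 - m then some ((m + 1) :: S)
    else if k + 1 < j + 1 - m then (push j S k).map (m :: ·)
    else if k = j + 1 - m then none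
    else (push j S (k - 1)).map (m :: ·)
  | _, _, _ => none

/-- the braid relations which are needed -/
def crt : ℕ → List ℕ → ℕ → List ℕ
  | j + 1, m :: S, k =>
    if k + 1 = j + 1 - m then []
    else if k + 1 < j + 1 - m then
      -- the letter moves over the whole run
      ((List.range m).reverse.map fun i => (wd j S).length + i) ++ crt j S k
    else if k = j + 1 - m then []
    else
      -- the run is `j, …, k + 1, k, k - 1, …`, the letter moves to `k, k - 1, k`
      ((List.range m).reverse.filter fun i => decide (j - i + 1 < k)).map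
          (fun i => (wd j S).length + i) ++
        [(wd j S).length + (j - k)] ++
        ((List.range (j - k)).reverse.map fun i => (wd j S).length + i) ++ crt j S (k - 1)
  | _, _, _ => []

/-- lengths of runs which occur -/
def valid : List ℕ → Bool
  | [a, b, c, d] => decide (a ≤ 4) && decide (b ≤ 3) && decide (c ≤ 2) && decide (d ≤ 1)
  | _ => false

/-- the check of one multiplication -/
def pok (S : List ℕ) (k : Fin 4) : Bool :=
  match push 4 S k.val with
  | none => true
  | some S' => valid S' && decide (mvs (crt 4 S k.val) (wd 4 S ++ [k]) = wd 4 S')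

lemma pok_all : ∀ (m4 : Fin 5) (m3 : Fin 4) (m2 : Fin 3) (m1 : Fin 2) (k : Fin 4),
    pok [m4.val, m3.val, m2.val, m1.val] k = true := by
  decide +kernel

lemma push_ok {S S' : List ℕ} {k : Fin 4} (hS : valid S = true) (h : push 4 S k.val = some S') :
    valid S' = true ∧ ev (wd 4 S ++ [k]) = ev (wd 4 S') := by
  have hp : pok S k = true := by
    match S, hS with
    | [a, b, c, d], hS =>
      unfold valid at hS
      simp only [Bool.and_eq_true, decide_eq_true_eq] at hS
      exact pok_all ⟨a, by omega⟩ ⟨b, by omega⟩ ⟨c, by omega⟩ ⟨d, by omega⟩ k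
  unfold pok at hp
  rw [h] at hp
  dsimp only at hp
  rw [Bool.and_eq_true, decide_eq_true_eq] at hp
  exact ⟨hp.1, ev_eq_of_mvs _ hp.2⟩

/-- right multiplication by a word -/
def nfs : List ℕ → List (Fin 4) → Option (List ℕ)
  | S, [] => some S
  | S, k :: t =>
    match push 4 S k.val with
    | none => none
    | some S' => nfs S' t

lemma nfs_ok {t : List (Fin 4)} : ∀ {S S' : List ℕ}, valid S = true → nfs S t = some S' →
    valid S' = true ∧ ev (wd 4 S) * ev t = ev (wd 4 S') := by
  induction t with
  | nil =>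
    intro S S' hS h
    unfold nfs at h
    obtain rfl := Option.some.inj h
    exact ⟨hS, by rw [ev_nil, mul_one]⟩
  | cons k t ih =>
    intro S S' hS h
    unfold nfs at h
    cases hp : push 4 S k.val with
    | none => rw [hp] at h; exact absurd h (by simp)
    | some S₁ =>
      rw [hp] at h
      dsimp only at h
      obtain ⟨h1, h2⟩ := push_ok hS hp
      obtain ⟨h3, h4⟩ := ih h1 h
      refine ⟨h3, ?_⟩
      rw [← h4, ← h2, ev_append, ev_cons, ev_cons, ev_nil, mul_one, mul_assoc]

/-- the trivial braid -/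
def S0 : List ℕ := [0, 0, 0, 0]

lemma wd_S0 : wd 4 S0 = [] := rfl

lemma pre_of_nfs {u t : List (Fin 4)} {S D : List ℕ} (h1 : nfs S0 u = some S)
    (h2 : nfs S t = some D) {d : List (Fin 4)} (h3 : nfs S0 d = some D) : Pre (ev u) (ev d) := by
  obtain ⟨v1, e1⟩ := nfs_ok rfl h1
  obtain ⟨-, e2⟩ := nfs_ok v1 h2
  obtain ⟨-, e3⟩ := nfs_ok rfl h3
  rw [wd_S0, ev_nil, one_mul] at e1 e3
  exact pre_iff.mpr ⟨t, by rw [e3, ← e2, ← e1]⟩

lemma ev_eq_of_nfs {u t d : List (Fin 4)} {D : List ℕ} (h1 : nfs S0 (u ++ t) = some D)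
    (h3 : nfs S0 d = some D) : ev u * ev t = ev d := by
  obtain ⟨-, e1⟩ := nfs_ok rfl h1
  obtain ⟨-, e3⟩ := nfs_ok rfl h3
  rw [wd_S0, ev_nil, one_mul] at e1 e3
  rw [← ev_append, e1, e3]

/-- the check of a greatest common prefix -/
def chkg (L : List (List ℕ × List (Fin 4))) (D MA FA MB FB : List ℕ) : Bool :=
  L.all fun p => valid p.1 && decide (nfs p.1 p.2 = some D) &&
    ([0, 1, 2, 3] : List (Fin 4)).all fun k =>
      (match push 4 p.1 k.val with
        | none => false
        | some S' => L.any fun q => decide (q.1 = S')) ||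
      (bad (wd 4 p.1 ++ [k]) MA FA || bad (wd 4 p.1 ++ [k]) MB FB)

theorem gcd_of_chk {A B d : List (Fin 4)} {L : List (List ℕ × List (Fin 4))} {D : List ℕ}
    (h0 : ∃ t, (S0, t) ∈ L) (h : chkg L D (mat A) (fin A) (mat B) (fin B) = true)
    (hd : nfs S0 d = some D) (hA : Pre (ev d) (ev A)) (hB : Pre (ev d) (ev B)) :
    IsGcd (ev A) (ev B) (ev d) := by
  have key : ∀ w : List (Fin 4), Pre (ev w) (ev A) → Pre (ev w) (ev B) →
      ∃ p ∈ L, ev w = ev (wd 4 p.1) := by
    intro w
    induction w using List.reverseRecOn with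
    | nil =>
      intro _ _
      obtain ⟨t, ht⟩ := h0
      exact ⟨_, ht, by rw [wd_S0]⟩
    | append_singleton w k ih =>
      intro h1 h2
      have h3 : Pre (ev w) (ev (w ++ [k])) := pre_iff.mpr ⟨[k], by rw [ev_append]⟩
      obtain ⟨p, hp, he⟩ := ih (pre_trans h3 h1) (pre_trans h3 h2)
      have he' : ev (w ++ [k]) = ev (wd 4 p.1 ++ [k]) := by rw [ev_append, ev_append, he]
      have hc := (List.all_eq_true.mp h) p hp
      rw [Bool.and_eq_true, Bool.and_eq_true] at hc
      obtain ⟨⟨hv, -⟩, hc⟩ := hc
      have hk : ∀ k : Fin 4, k ∈ ([0, 1, 2, 3] : List (Fin 4)) := by decide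
      have hc' := (List.all_eq_true.mp hc) k (hk k)
      rw [Bool.or_eq_true, Bool.or_eq_true] at hc'
      rcases hc' with hc' | hc' | hc'
      · cases hps : push 4 p.1 k.val with
        | none => rw [hps] at hc'; exact absurd hc' (by simp)
        | some S' =>
          rw [hps] at hc'
          obtain ⟨q, hq, hqe⟩ := List.any_eq_true.mp hc'
          refine ⟨q, hq, ?_⟩
          rw [he', (push_ok hv hps).2, of_decide_eq_true hqe]
      · rw [he'] at h1
        exact absurd h1 (not_pre_bad hc')
      · rw [he'] at h2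
        exact absurd h2 (not_pre_bad hc')
  refine ⟨hA, hB, fun c hc h1 h2 => ?_⟩
  obtain ⟨w, rfl⟩ := exists_word hc
  obtain ⟨p, hp, he⟩ := key w h1 h2
  have hc := (List.all_eq_true.mp h) p hp
  rw [Bool.and_eq_true, Bool.and_eq_true] at hc
  obtain ⟨⟨hv, hn⟩, -⟩ := hc
  obtain ⟨-, e1⟩ := nfs_ok hv (of_decide_eq_true hn)
  obtain ⟨-, e2⟩ := nfs_ok rfl hd
  rw [wd_S0, ev_nil, one_mul] at e2
  exact pre_iff.mpr ⟨p.2, by rw [e2, ← e1, he]⟩

end Pool.Agent.BraidOut
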